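import Pool.Agent.R979.NG.Bridge
import Pool.Agent.Helper381.LES

/-! Mod 2 Betti numbers and real Betti numbers in the absence of 2-torsion. -/

namespace Pool.Agent.R979.NG

open Pool.Agent.Helper381 Finsupp Module

theorem pr_bdk {k : Type} [CommRing k] {S : ℕ → Type} (face : ∀ n, Fin (n + 2) → S (n + 1) → S n)
    (n : ℕ) (f : S n → k) (z : S (n + 1) →₀ k) :
    Finsupp.linearCombination k (altd k face n f) z =
      Finsupp.linearCombination k f (bdk k face n z) := by
  have : Finsupp.linearCombination k (altd k face n f) =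
      (Finsupp.linearCombination k f).comp (bdk k face n) := by
    apply Finsupp.lhom_ext'
    intro σ
    apply LinearMap.ext_ring
    simp only [LinearMap.comp_apply, lsingle_apply, linearCombination_single, one_smul]
    rw [bdk_single, map_sum, altd_apply]
    refine Finset.sum_congr rfl fun i _ => ?_
    rw [map_smul, linearCombination_single, one_smul, smul_eq_mul]
  exact LinearMap.congr_fun this z

variable {X : Type} [TopologicalSpace X]

theorem cob_iff {k : Type} [Field k] (n : ℕ) (f : Sing X n → k)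
    (h : ∀ z ∈ cyck k X n, Finsupp.linearCombination k f z = 0) :
    f ∈ cobound k (fun n => Sing X n → k) (fun n => altd k (sface (X := X)) n) n := by
  cases n with
  | zero =>
    have : f = 0 := by
      funext σ
      have := h (single σ 1) trivial
      simpa using this
    rw [this]
    exact Submodule.zero_mem _
  | succ m =>
    have h1 : Finsupp.linearCombination k f ∈
        (LinearMap.ker (bdk k (sface (X := X)) m)).dualAnnihilator := by
      rw [Submodule.mem_dualAnnihilator]
      exact h
    rw [← LinearMap.range_dualMap_eq_dualAnnihilator_ker] at h1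
    obtain ⟨G, hG⟩ := h1
    refine ⟨fun σ => G (single σ 1), ?_⟩
    funext σ
    have h2 := pr_bdk (sface (X := X)) m (fun σ => G (single σ 1)) (single σ 1)
    rw [linearCombination_single, one_smul] at h2
    rw [h2]
    have h3 : Finsupp.linearCombination k (fun σ => G (single σ 1)) = G := by
      apply Finsupp.lhom_ext'
      intro σ
      apply LinearMap.ext_ring
      simp
    rw [h3]
    have h4 := LinearMap.congr_fun hG (single σ 1)
    rw [LinearMap.dualMap_apply] at h4
    rw [h4]
    simp

/-- no 2-torsion in degree `n` -/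
def NoTwo (X : Type) [TopologicalSpace X] (n : ℕ) : Prop :=
  ∀ z ∈ cyck ℤ X n, (2 : ℤ) • z ∈ bdyk ℤ X n → z ∈ bdyk ℤ X n

/-- reduction mod 2 -/
noncomputable def red (S : Type) : (S →₀ ℤ) →+ (S →₀ ZMod 2) :=
  Finsupp.mapRange.addMonoidHom (Int.castAddHom (ZMod 2))

theorem red_apply {S : Type} (z : S →₀ ℤ) (s : S) : red S z s = ((z s : ℤ) : ZMod 2) := rfl

theorem red_single {S : Type} (s : S) (c : ℤ) : red S (single s c) = single s (c : ZMod 2) := by
  simp [red]

theorem red_surj {S : Type} (z : S →₀ ZMod 2) : ∃ w, red S w = z := by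
  refine ⟨Finsupp.mapRange (fun x : ZMod 2 => (x.val : ℤ)) (by simp) z, ?_⟩
  ext s
  rw [red_apply, Finsupp.mapRange_apply]
  simp

theorem red_zero {S : Type} (z : S →₀ ℤ) (h : red S z = 0) : ∃ w, (2 : ℤ) • w = z := by
  refine ⟨Finsupp.mapRange (fun x : ℤ => x / 2) (by simp) z, ?_⟩
  ext s
  have h1 : ((z s : ℤ) : ZMod 2) = 0 := by
    rw [← red_apply, h]; rfl
  have h2 : (2 : ℤ) ∣ z s := (ZMod.intCast_zmod_eq_zero_iff_dvd (z s) 2).mp h1
  rw [Finsupp.smul_apply, Finsupp.mapRange_apply, smul_eq_mul]
  omega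

theorem red_bd {S : ℕ → Type} (face : ∀ n, Fin (n + 2) → S (n + 1) → S n) (n : ℕ)
    (z : S (n + 1) →₀ ℤ) : red (S n) (bdk ℤ face n z) = bdk (ZMod 2) face n (red _ z) := by
  induction z using Finsupp.induction_linear with
  | zero => simp
  | add x y hx hy => rw [map_add, map_add, map_add, map_add, hx, hy]
  | single σ c =>
    rw [red_single, bdk_single, bdk_single, map_sum]
    refine Finset.sum_congr rfl fun i _ => ?_
    ext s
    rw [red_apply, Finsupp.smul_apply, Finsupp.smul_apply, smul_eq_mul, smul_eq_mul]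
    push_cast
    congr 1
    rw [← red_apply, red_single]

theorem red_pr {S : Type} (f : S → ZMod 2) (z : S →₀ ℤ) :
    Finsupp.linearCombination ℤ f z = Finsupp.linearCombination (ZMod 2) f (red S z) := by
  induction z using Finsupp.induction_linear with
  | zero => simp
  | add x y hx hy => rw [map_add, map_add, map_add, hx, hy]
  | single σ c =>
    rw [red_single, linearCombination_single, linearCombination_single, smul_eq_mul,
      zsmul_eq_mul]

theorem lift_cycle (n : ℕ) (h : ∀ m, n = m + 1 → NoTwo X m) (z : Sing X n →₀ ZMod 2)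
    (hz : z ∈ cyck (ZMod 2) X n) : ∃ w ∈ cyck ℤ X n, red _ w = z := by
  obtain ⟨z0, hz0⟩ := red_surj z
  cases n with
  | zero => exact ⟨z0, trivial, hz0⟩
  | succ m =>
    have h1 : red _ (bdk ℤ (sface (X := X)) m z0) = 0 := by
      rw [red_bd, hz0]; exact hz
    obtain ⟨w, hw⟩ := red_zero _ h1
    have hwc : w ∈ cyck ℤ X m := by
      cases m with
      | zero => trivial
      | succ m =>
        have h2 : bdk ℤ (sface (X := X)) m ((2 : ℤ) • w) = 0 := by
          rw [hw]
          exact bd_bd (sface (X := X)) (fun n i j σ h => sface_sface n i j σ h) m z0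
        rw [map_smul] at h2
        have h3 := (smul_eq_zero.mp h2).resolve_left (by norm_num)
        exact h3
    obtain ⟨u, hu⟩ := h m rfl w hwc ⟨z0, hw.symm⟩
    refine ⟨z0 - (2 : ℤ) • u, ?_, ?_⟩
    · change bdk ℤ (sface (X := X)) m (z0 - (2 : ℤ) • u) = 0
      rw [map_sub, map_smul, hu, hw, sub_self]
    · rw [map_sub, hz0, map_zsmul]
      ext s
      rw [Finsupp.sub_apply, Finsupp.smul_apply]
      have : (2 : ℤ) • (red _ u) s = 0 := by
        rw [← Int.cast_smul_eq_zsmul (ZMod 2)]
        have h2 : ((2 : ℤ) : ZMod 2) = 0 := rfl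
        rw [h2, zero_smul]
      rw [this, sub_zero]

theorem dim_le (n : ℕ) (h1 : NoTwo X n) (h0 : ∀ m, n = m + 1 → NoTwo X m)
    (hfin : Module.Finite ℝ (SingCoh ℝ X n)) :
    finrank (ZMod 2) (SingCoh (ZMod 2) X n) ≤ finrank ℝ (SingCoh ℝ X n) := by
  classical
  have : Fact (Nat.Prime 2) := ⟨Nat.prime_two⟩
  by_cases hfin2 : Module.Finite (ZMod 2) (SingCoh (ZMod 2) X n)
  swap
  · rw [finrank_of_not_finite hfin2]
    exact Nat.zero_le _
  set m := finrank (ZMod 2) (SingCoh (ZMod 2) X n) with hm
  let b := Module.finBasis (ZMod 2) (SingCoh (ZMod 2) X n)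
  have hrep : ∀ i, ∃ f : Sing X n → ZMod 2, ∃ hf : f ∈ LinearMap.ker (altd (ZMod 2) (sface (X := X)) n),
      (Submodule.Quotient.mk ⟨f, hf⟩ : SingCoh (ZMod 2) X n) = b i := by
    intro i
    obtain ⟨⟨f, hf⟩, h⟩ := Submodule.mkQ_surjective _ (b i)
    exact ⟨f, hf, h⟩
  choose f hf hfb using hrep
  -- dual cycles
  let Φ : (Sing X n →₀ ZMod 2) →ₗ[ZMod 2] (Fin m → ZMod 2) :=
    LinearMap.pi (fun i => Finsupp.linearCombination (ZMod 2) (f i))
  have hΦ : Submodule.map Φ (cyck (ZMod 2) X n) = ⊤ := by
    by_contra hne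
    obtain ⟨a, ha, hle⟩ := Submodule.exists_le_ker_of_lt_top _ (lt_top_iff_ne_top.mpr hne)
    apply ha
    have hcob := cob_iff n (∑ i, (a (Pi.single i 1)) • f i) (by
      intro z hz
      have h2 : a (Φ z) = 0 := hle ⟨z, hz, rfl⟩
      have h3 : Φ z = ∑ i, (Finsupp.linearCombination (ZMod 2) (f i) z) •
          (Pi.single i (1 : ZMod 2) : Fin m → ZMod 2) := by
        funext j
        simp [Φ, Finset.sum_apply, Pi.single_apply]
      rw [h3, map_sum] at h2
      simp only [map_smul, smul_eq_mul] at h2
      have h4 : Finsupp.linearCombination (ZMod 2) (∑ i, (a (Pi.single i 1)) • f i) z =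
          ∑ i, (a (Pi.single i 1)) * Finsupp.linearCombination (ZMod 2) (f i) z := by
        simp only [Finsupp.linearCombination_apply, Finsupp.sum, Finset.sum_apply, Pi.smul_apply,
          smul_eq_mul, Finset.mul_sum]
        rw [Finset.sum_comm]
        refine Finset.sum_congr rfl fun i _ => Finset.sum_congr rfl fun j _ => ?_
        ring
      rw [h4, ← h2]
      refine Finset.sum_congr rfl fun i _ => ?_
      ring)
    have h5 : ∑ i, (a (Pi.single i 1)) • b i = 0 := by
      have h6 : ∑ i, (a (Pi.single i 1)) • b i =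
          (Submodule.Quotient.mk (∑ i, (a (Pi.single i 1)) • ⟨f i, hf i⟩) :
            SingCoh (ZMod 2) X n) := by
        simp only [← hfb]
        rw [← Submodule.mkQ_apply, map_sum]
        rfl
      rw [h6]
      apply (Submodule.Quotient.mk_eq_zero _).mpr
      change (((∑ i, (a (Pi.single i 1)) •
        (⟨f i, hf i⟩ : LinearMap.ker (altd (ZMod 2) (sface (X := X)) n)) :
          LinearMap.ker (altd (ZMod 2) (sface (X := X)) n)) : Sing X n → ZMod 2)) ∈
            cobound (ZMod 2) (fun n => Sing X n → ZMod 2)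
              (fun n => altd (ZMod 2) (sface (X := X)) n) n
      rw [Submodule.coe_sum]
      exact hcob
    have h7 := Fintype.linearIndependent_iff.mp b.linearIndependent _ h5
    apply LinearMap.pi_ext'
    intro i
    apply LinearMap.ext_ring
    exact h7 i
  have hz : ∀ j : Fin m, ∃ z ∈ cyck ℤ X n, ∀ i, Finsupp.linearCombination ℤ (f i) z =
      if i = j then 1 else 0 := by
    intro j
    have : (Pi.single j 1 : Fin m → ZMod 2) ∈ Submodule.map Φ (cyck (ZMod 2) X n) := by
      rw [hΦ]; trivial
    obtain ⟨z, hz, hzj⟩ := this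
    obtain ⟨w, hw, rfl⟩ := lift_cycle n h0 z hz
    refine ⟨w, hw, fun i => ?_⟩
    rw [red_pr]
    have := congrFun hzj i
    simp only [Φ, LinearMap.pi_apply, Pi.single_apply] at this
    exact this
  choose z hzc hzf using hz
  -- descent
  have hdesc : ∀ c : Fin m → ℤ, ∑ j, c j • z j ∈ bdyk ℤ X n →
      ∃ c' : Fin m → ℤ, (∀ j, c j = 2 * c' j) ∧ ∑ j, c' j • z j ∈ bdyk ℤ X n := by
    intro c hc
    have hev : ∀ i, ((c i : ℤ) : ZMod 2) = 0 := by
      intro i
      obtain ⟨y, hy⟩ := hc
      have e1 : Finsupp.linearCombination ℤ (f i) (∑ j, c j • z j) = ((c i : ℤ) : ZMod 2) := by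
        rw [map_sum]
        simp only [map_smul, hzf]
        rw [Finset.sum_eq_single i]
        · simp
        · intro j _ hj
          simp [Ne.symm hj]
        · simp
      rw [← e1, ← hy]
      have e2 := ev_altd (k := ZMod 2) (sface (X := X)) n (f i) y
      have e3 : altd (ZMod 2) (sface (X := X)) n (f i) = 0 := hf i
      rw [e3] at e2
      change Finsupp.linearCombination ℤ (f i) (bd (sface (X := X)) n y) = 0
      rw [← e2]
      simp
    have hdiv : ∀ i, ∃ c' : ℤ, c i = 2 * c' := by
      intro i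
      exact (ZMod.intCast_zmod_eq_zero_iff_dvd (c i) 2).mp (hev i)
    choose c' hc' using hdiv
    refine ⟨c', hc', ?_⟩
    apply h1 _ (Submodule.sum_mem _ fun j _ => Submodule.smul_mem _ _ (hzc j))
    have : (2 : ℤ) • ∑ j, c' j • z j = ∑ j, c j • z j := by
      rw [Finset.smul_sum]
      refine Finset.sum_congr rfl fun j _ => ?_
      rw [hc' j, mul_smul]
    rw [this]
    exact hc
  have hpow : ∀ k : ℕ, ∀ c : Fin m → ℤ, ∑ j, c j • z j ∈ bdyk ℤ X n → ∀ j, (2 : ℤ) ^ k ∣ c j := by
    intro k
    induction k with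
    | zero => intro c _ j; simp
    | succ k ih =>
      intro c hc j
      obtain ⟨c', h2, h3⟩ := hdesc c hc
      rw [h2 j, pow_succ, mul_comm]
      exact mul_dvd_mul_left 2 (ih c' h3 j)
  have hzero : ∀ c : Fin m → ℤ, ∑ j, c j • z j ∈ bdyk ℤ X n → ∀ j, c j = 0 := by
    intro c hc j
    apply Int.eq_zero_of_abs_lt_dvd (hpow (c j).natAbs c hc j)
    rw [Int.abs_eq_natAbs]
    exact_mod_cast Nat.lt_two_pow_self
  -- the quotient
  let Q := (Sing X n →₀ ℤ) ⧸ bdyk ℤ X n
  let v : Fin m → Q := fun j => Submodule.Quotient.mk (z j)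
  have hv : LinearIndependent ℤ v := by
    rw [Fintype.linearIndependent_iff]
    intro c hc
    apply hzero
    have : (Submodule.Quotient.mk (∑ j, c j • z j) : Q) = 0 := by
      rw [← hc, ← Submodule.mkQ_apply, map_sum]
      simp only [map_smul]
      rfl
    exact (Submodule.Quotient.mk_eq_zero _).mp this
  have hG : ∀ i : Fin m, ∃ G : Q →ₗ[ℤ] ℝ, ∀ j, G (v j) = if i = j then 1 else 0 := by
    intro i
    obtain ⟨G, hG⟩ := (Module.Baer.of_divisible ℝ).extension_property
      (Finsupp.linearCombination ℤ v) hv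
      (Finsupp.linearCombination ℤ (fun j : Fin m => if i = j then (1 : ℝ) else 0))
    refine ⟨G, fun j => ?_⟩
    have := LinearMap.congr_fun hG (single j 1)
    simpa using this
  choose G hG using hG
  let g : Fin m → Sing X n → ℝ := fun i σ => G i (Submodule.Quotient.mk (single σ 1))
  have hlc : ∀ i, Finsupp.linearCombination ℤ (g i) = (G i).comp (bdyk ℤ X n).mkQ := by
    intro i
    apply Finsupp.lhom_ext'
    intro σ
    apply LinearMap.ext_ring
    simp only [g, LinearMap.comp_apply, lsingle_apply, linearCombination_single, one_smul]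
    rfl
  have hgk : ∀ i, g i ∈ LinearMap.ker (altd ℝ (sface (X := X)) n) := by
    intro i
    rw [LinearMap.mem_ker]
    funext σ
    rw [altd_eq_ev, hlc, LinearMap.comp_apply, Submodule.mkQ_apply]
    have : (Submodule.Quotient.mk (bd (sface (X := X)) n (single σ 1)) : Q) = 0 :=
      (Submodule.Quotient.mk_eq_zero _).mpr ⟨_, rfl⟩
    rw [this, map_zero]
    rfl
  let cl : Fin m → SingCoh ℝ X n := fun i => Submodule.Quotient.mk ⟨g i, hgk i⟩
  have hcl : LinearIndependent ℝ cl := by
    rw [Fintype.linearIndependent_iff]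
    intro a ha j
    have h6 : ∑ i, a i • cl i =
        (Submodule.Quotient.mk (∑ i, a i • ⟨g i, hgk i⟩) : SingCoh ℝ X n) := by
      rw [← Submodule.mkQ_apply, map_sum]
      rfl
    rw [h6] at ha
    have h7 := (Submodule.Quotient.mk_eq_zero _).mp ha
    have h8 : ∑ i, a i • g i ∈
        cobound ℝ (fun n => Sing X n → ℝ) (fun n => altd ℝ (sface (X := X)) n) n := by
      have h9 : (((∑ i, a i • (⟨g i, hgk i⟩ : LinearMap.ker (altd ℝ (sface (X := X)) n)) :
          LinearMap.ker (altd ℝ (sface (X := X)) n)) : Sing X n → ℝ)) ∈ cobound ℝ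
            (fun n => Sing X n → ℝ) (fun n => altd ℝ (sface (X := X)) n) n := h7
      rw [Submodule.coe_sum] at h9
      exact h9
    have h10 : Finsupp.linearCombination ℤ (∑ i, a i • g i) (z j) = 0 := by
      revert h8
      have hzj := hzc j
      generalize z j = w at hzj
      generalize (∑ i, a i • g i) = F
      intro h8
      clear * - hzj h8
      cases n with
      | zero =>
        have : F = 0 := h8
        rw [this]
        simp
      | succ n =>
        obtain ⟨y, hy⟩ := h8
        rw [← hy, ev_altd]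
        have : bd (sface (X := X)) n w = 0 := hzj
        rw [this, map_zero]
    have h11 : Finsupp.linearCombination ℤ (∑ i, a i • g i) (z j) =
        ∑ i, a i * Finsupp.linearCombination ℤ (g i) (z j) := by
      simp only [Finsupp.linearCombination_apply, Finsupp.sum, Finset.sum_apply, Pi.smul_apply,
        smul_eq_mul, Finset.mul_sum, zsmul_eq_mul]
      rw [Finset.sum_comm]
      refine Finset.sum_congr rfl fun i _ => Finset.sum_congr rfl fun j _ => ?_
      ring
    rw [h11] at h10
    simp only [hlc, LinearMap.comp_apply] at h10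
    have h12 : ∀ i, G i ((bdyk ℤ X n).mkQ (z j)) = if i = j then 1 else 0 := fun i => hG i j
    simp only [h12] at h10
    simpa using h10
  have := hcl.fintype_card_le_finrank
  rwa [Fintype.card_fin] at this

end Pool.Agent.R979.NG
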