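import Pool.Agent.Helper381.Small

/-! Comparison of the singular chain complex of Mathlib with free modules on singular simplices. -/

namespace Pool.Agent.R979.NG

open Pool.Agent.Helper381 CategoryTheory Limits AlgebraicTopology Opposite

section Bdk

universe u v w

/-- alternating boundary on free chains with coefficients in `k` -/
noncomputable def bdk (k : Type v) [CommRing k] {S : ℕ → Type u}
    (face : ∀ n, Fin (n + 2) → S (n + 1) → S n) (n : ℕ) :
    (S (n + 1) →₀ k) →ₗ[k] (S n →₀ k) :=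
  ∑ i : Fin (n + 2), ((-1 : k) ^ (i : ℕ)) • Finsupp.lmapDomain k k (face n i)

theorem bdk_single (k : Type v) [CommRing k] {S : ℕ → Type u}
    (face : ∀ n, Fin (n + 2) → S (n + 1) → S n) (n : ℕ) (σ : S (n + 1)) (c : k) :
    bdk k face n (Finsupp.single σ c) =
      ∑ i : Fin (n + 2), ((-1 : k) ^ (i : ℕ)) • Finsupp.single (face n i σ) c := by
  simp only [bdk, LinearMap.sum_apply, LinearMap.smul_apply, Finsupp.lmapDomain_apply,
    Finsupp.mapDomain_single]

theorem bdk_int {S : ℕ → Type u} (face : ∀ n, Fin (n + 2) → S (n + 1) → S n) (n : ℕ) :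
    bdk ℤ face n = bd face n := rfl

end Bdk

variable (k : Type) [CommRing k] (X : Type) [TopologicalSpace X]

/-- cycles -/
noncomputable def cyck : ∀ n : ℕ, Submodule k (Sing X n →₀ k)
  | 0 => ⊤
  | (m + 1) => LinearMap.ker (bdk k (sface (X := X)) m)

/-- boundaries -/
noncomputable def bdyk (n : ℕ) : Submodule k (Sing X n →₀ k) :=
  LinearMap.range (bdk k (sface (X := X)) n)

/-- subquotients -/
abbrev Sq {k : Type} [CommRing k] {C : Type} [AddCommGroup C] [Module k C]
    (Z B : Submodule k C) : Type := Z ⧸ B.comap Z.subtype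

/-- homology in the concrete form -/
abbrev HK (n : ℕ) : Type := Sq (cyck k X n) (bdyk k X n)

open Simplicial

/-- the singular chain complex of Mathlib -/
noncomputable abbrev MC : ChainComplex (ModuleCat.{0} k) ℕ :=
  (TopCat.toSSet.obj (TopCat.of X)).chainComplex (ModuleCat.of k k)

theorem MC_eq : MC k X =
    ((singularChainComplexFunctor (ModuleCat.{0} k)).obj (ModuleCat.of k k)).obj (TopCat.of X) :=
  rfl

/-- the simplices -/
noncomputable def sx (n : ℕ) : (TopCat.toSSet.obj (TopCat.of X)) _⦋n⦌ ≃ Sing X n :=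
  TopCat.toSSetObjEquiv (TopCat.of X) (op ⦋n⦌)

theorem sx_face (n : ℕ) (i : Fin (n + 2)) (x : (TopCat.toSSet.obj (TopCat.of X)) _⦋n + 1⦌) :
    sx X n ((TopCat.toSSet.obj (TopCat.of X)).δ i x) = sface n i (sx X (n + 1) x) := by
  apply ContinuousMap.ext
  intro t
  rfl

/-- comparison on chains -/
noncomputable def toF (n : ℕ) : (MC k X).X n ⟶ ModuleCat.of k (Sing X n →₀ k) :=
  ((TopCat.toSSet.obj (TopCat.of X)).isColimitChainComplexXCofan (ModuleCat.of k k) n).desc
    (Cofan.mk _ (fun x => ModuleCat.ofHom (Finsupp.lsingle (sx X n x))))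

theorem ι_toF (n : ℕ) (x : (TopCat.toSSet.obj (TopCat.of X)) _⦋n⦌) :
    (TopCat.toSSet.obj (TopCat.of X)).ιChainComplex x ≫ toF k X n =
      ModuleCat.ofHom (Finsupp.lsingle (sx X n x)) :=
  ((TopCat.toSSet.obj (TopCat.of X)).isColimitChainComplexXCofan (ModuleCat.of k k) n).fac _ ⟨x⟩

/-- inverse comparison on chains -/
noncomputable def ofF (n : ℕ) : ModuleCat.of k (Sing X n →₀ k) ⟶ (MC k X).X n :=
  ModuleCat.ofHom (Finsupp.lsum k (fun σ =>
    ((TopCat.toSSet.obj (TopCat.of X)).ιChainComplex (R := ModuleCat.of k k)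
      ((sx X n).symm σ)).hom))

theorem lsingle_ofF (n : ℕ) (σ : Sing X n) :
    ModuleCat.ofHom (Finsupp.lsingle σ) ≫ ofF k X n =
      (TopCat.toSSet.obj (TopCat.of X)).ιChainComplex (R := ModuleCat.of k k)
        ((sx X n).symm σ) := by
  apply ModuleCat.hom_ext
  apply LinearMap.ext_ring
  change (Finsupp.lsum k (fun σ =>
    ((TopCat.toSSet.obj (TopCat.of X)).ιChainComplex (R := ModuleCat.of k k)
      ((sx X n).symm σ)).hom)) (Finsupp.single σ 1) = _
  rw [Finsupp.lsum_single]

theorem toF_ofF (n : ℕ) : toF k X n ≫ ofF k X n = 𝟙 _ := by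
  apply SSet.chainComplex_hom_ext
  intro x
  rw [← Category.assoc, ι_toF, lsingle_ofF, Equiv.symm_apply_apply, Category.comp_id]

theorem ofF_toF (n : ℕ) : ofF k X n ≫ toF k X n = 𝟙 _ := by
  apply ModuleCat.hom_ext
  apply Finsupp.lhom_ext'
  intro σ
  have h := lsingle_ofF k X n σ
  have h2 : ModuleCat.ofHom (Finsupp.lsingle σ) ≫ ofF k X n ≫ toF k X n =
      ModuleCat.ofHom (Finsupp.lsingle σ) := by
    rw [← Category.assoc, h, ι_toF, Equiv.apply_symm_apply]
  have h3 := congrArg ModuleCat.Hom.hom h2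
  exact h3

theorem d_toF (n : ℕ) : (MC k X).d (n + 1) n ≫ toF k X n =
    toF k X (n + 1) ≫ ModuleCat.ofHom (bdk k (sface (X := X)) n) := by
  apply SSet.chainComplex_hom_ext
  intro x
  rw [← Category.assoc, SSet.ιChainComplex_d, ← Category.assoc, ι_toF,
    Preadditive.sum_comp]
  simp only [Preadditive.zsmul_comp, ι_toF]
  rw [← ModuleCat.ofHom_comp]
  apply ModuleCat.hom_ext
  apply LinearMap.ext_ring
  rw [ModuleCat.hom_sum, ModuleCat.hom_ofHom, LinearMap.sum_apply, LinearMap.comp_apply,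
    Finsupp.lsingle_apply, bdk_single]
  refine Finset.sum_congr rfl fun i _ => ?_
  rw [ModuleCat.hom_zsmul, sx_face]
  change ((-1 : ℤ) ^ (i : ℕ)) • Finsupp.single (sface n i (sx X (n + 1) x)) (1 : k) = _
  rw [← Int.cast_smul_eq_zsmul k]
  push_cast
  rfl

/-- the comparison equivalence -/
noncomputable def eqF (n : ℕ) : (MC k X).X n ≃ₗ[k] (Sing X n →₀ k) :=
  LinearEquiv.ofLinearMap (toF k X n).hom (ofF k X n).hom
    (by
      have := congrArg ModuleCat.Hom.hom (ofF_toF k X n)
      simpa using this)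
    (by
      have := congrArg ModuleCat.Hom.hom (toF_ofF k X n)
      simpa using this)

theorem eqF_d (n : ℕ) (z : (MC k X).X (n + 1)) :
    eqF k X n (((MC k X).d (n + 1) n).hom z) = bdk k (sface (X := X)) n (eqF k X (n + 1) z) := by
  have := congrArg (fun f => (ModuleCat.Hom.hom f) z) (d_toF k X n)
  exact this

theorem ker_iff (n j : ℕ) (hj : (ComplexShape.down ℕ).next n = j) (z : (MC k X).X n) :
    z ∈ LinearMap.ker ((MC k X).d n j).hom ↔ eqF k X n z ∈ cyck k X n := by
  cases n with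
  | zero =>
    have : (MC k X).d 0 j = 0 := by
      apply HomologicalComplex.shape
      rw [← hj]
      simp
    rw [this]
    simp [cyck]
  | succ m =>
    have hj' : j = m := by
      rw [← hj]
      simp
    subst hj'
    rw [LinearMap.mem_ker, cyck, LinearMap.mem_ker, ← eqF_d]
    exact (LinearEquiv.map_eq_zero_iff _).symm

theorem range_iff (n : ℕ) (z : (MC k X).X n) :
    z ∈ LinearMap.range ((MC k X).d (n + 1) n).hom ↔ eqF k X n z ∈ bdyk k X n := by
  constructor
  · rintro ⟨w, rfl⟩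
    exact ⟨eqF k X (n + 1) w, (eqF_d k X n w).symm⟩
  · rintro ⟨w, hw⟩
    refine ⟨(eqF k X (n + 1)).symm w, ?_⟩
    apply (eqF k X n).injective
    rw [eqF_d, LinearEquiv.apply_symm_apply]
    exact hw

theorem homology_equiv (n : ℕ) : Nonempty ((MC k X).homology n ≃ₗ[k] HK k X n) := by
  set j := (ComplexShape.down ℕ).next n with hj
  have hi : (ComplexShape.down ℕ).prev n = n + 1 := by simp
  let S := (MC k X).sc' (n + 1) n j
  have e1 : (MC k X).homology n ≅ S.homology := (MC k X).homologyIsoSc' (n + 1) n j hi rfl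
  have e2 : S.homology ≅ S.moduleCatLeftHomologyData.H := S.moduleCatHomologyIso
  have e3 : (MC k X).homology n ≃ₗ[k]
      (LinearMap.ker S.g.hom ⧸ LinearMap.range S.moduleCatToCycles) := (e1 ≪≫ e2).toLinearEquiv
  have h4 : LinearMap.range S.moduleCatToCycles =
      (LinearMap.range S.f.hom).comap (LinearMap.ker S.g.hom).subtype := by
    ext z
    constructor
    · rintro ⟨w, rfl⟩
      exact ⟨w, rfl⟩
    · rintro ⟨w, hw⟩
      exact ⟨w, Subtype.ext hw⟩
  have e4 : (LinearMap.ker S.g.hom ⧸ LinearMap.range S.moduleCatToCycles) ≃ₗ[k]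
      (LinearMap.ker S.g.hom ⧸ (LinearMap.range S.f.hom).comap (LinearMap.ker S.g.hom).subtype) :=
    Submodule.quotEquivOfEq _ _ h4
  let P : Submodule k ((MC k X).X n × (Sing X n →₀ k)) :=
    LinearMap.ker ((eqF k X n).toLinearMap.comp (LinearMap.fst k _ _) - LinearMap.snd k _ _)
  have hP : ∀ x y, (x, y) ∈ P ↔ eqF k X n x = y := by
    intro x y
    simp [P, sub_eq_zero]
  obtain ⟨e5⟩ := corr (k := k) (X := (MC k X).X n) (Y := Sing X n →₀ k)
    (LinearMap.ker S.g.hom) (LinearMap.range S.f.hom) (cyck k X n) (bdyk k X n) P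
    (by
      intro x hx
      exact ⟨eqF k X n x, (ker_iff k X n j rfl x).mp hx, (hP _ _).mpr rfl⟩)
    (by
      intro y hy
      refine ⟨(eqF k X n).symm y, ?_, (hP _ _).mpr (by simp)⟩
      apply (ker_iff k X n j rfl _).mpr
      rw [LinearEquiv.apply_symm_apply]
      exact hy)
    (by
      intro x _ y _ hxy
      have hxy' := (hP x y).mp hxy
      rw [← hxy']
      exact range_iff k X n x)
  exact ⟨e3.trans (e4.trans e5)⟩

section Nat

variable {X} {Y : Type} [TopologicalSpace Y]

/-- push forward of chains -/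
noncomputable def fpush (f : C(X, Y)) (n : ℕ) : (Sing X n →₀ k) →ₗ[k] (Sing Y n →₀ k) :=
  Finsupp.lmapDomain k k (fun σ : Sing X n => (f.comp σ : Sing Y n))

theorem fpush_single (f : C(X, Y)) (n : ℕ) (σ : Sing X n) (c : k) :
    fpush k f n (Finsupp.single σ c) = Finsupp.single (f.comp σ : Sing Y n) c := by
  simp [fpush]

/-- map on the complexes of Mathlib -/
noncomputable abbrev mcMap (f : C(X, Y)) : MC k X ⟶ MC k Y :=
  SSet.chainComplexMap (TopCat.toSSet.map (TopCat.ofHom f)) (ModuleCat.of k k)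

theorem map_toF (f : C(X, Y)) (n : ℕ) : (mcMap k f).f n ≫ toF k Y n =
    toF k X n ≫ ModuleCat.ofHom (fpush k f n) := by
  apply SSet.chainComplex_hom_ext
  intro x
  rw [← Category.assoc, SSet.ι_chainComplexMap_f, ← Category.assoc, ι_toF, ι_toF,
    ← ModuleCat.ofHom_comp]
  apply ModuleCat.hom_ext
  apply LinearMap.ext_ring
  rw [ModuleCat.hom_ofHom, ModuleCat.hom_ofHom, LinearMap.comp_apply, Finsupp.lsingle_apply,
    Finsupp.lsingle_apply, fpush_single]
  rfl

theorem eqF_map (f : C(X, Y)) (n : ℕ) (z : (MC k X).X n) :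
    eqF k Y n (((mcMap k f).f n).hom z) = fpush k f n (eqF k X n z) := by
  have := congrArg (fun f => (ModuleCat.Hom.hom f) z) (map_toF k f n)
  exact this

theorem homotopy_chain (f g : C(X, Y)) (H : f.Homotopy g) (n : ℕ) (z : Sing X n →₀ k)
    (hz : z ∈ cyck k X n) : fpush k f n z - fpush k g n z ∈ bdyk k Y n := by
  let h : Homotopy (mcMap k f) (mcMap k g) :=
    TopCat.Homotopy.singularChainComplexFunctorObjMap (X := TopCat.of X) (Y := TopCat.of Y)
      (f := TopCat.ofHom f) (g := TopCat.ofHom g) H (ModuleCat.of k k)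
  set z' := (eqF k X n).symm z with hz'
  have hzz : eqF k X n z' = z := by simp [hz']
  set j := (ComplexShape.down ℕ).next n with hj
  have hzk : z' ∈ LinearMap.ker ((MC k X).d n j).hom := by
    apply (ker_iff k X n j rfl _).mpr
    rw [hzz]; exact hz
  have hc := h.comm n
  have e1 : ((mcMap k f).f n).hom z' - ((mcMap k g).f n).hom z' =
      ((MC k Y).d (n + 1) n).hom ((h.hom n (n + 1)).hom z') := by
    have h1 := congrArg (fun f => (ModuleCat.Hom.hom f) z') hc
    have h2 : prevD n h.hom = h.hom n (n + 1) ≫ (MC k Y).d (n + 1) n := by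
      rw [Homotopy.prevD_chainComplex]
    have h3 : (ModuleCat.Hom.hom (dNext n h.hom)) z' = 0 := by
      have : dNext n h.hom = (MC k X).d n j ≫ h.hom j n := rfl
      rw [this, ModuleCat.hom_comp, LinearMap.comp_apply]
      have h5 : ((MC k X).d n j).hom z' = 0 := hzk
      rw [h5, map_zero]
    have h4 : (ModuleCat.Hom.hom ((mcMap k f).f n)) z' =
        (ModuleCat.Hom.hom (dNext n h.hom)) z' + (ModuleCat.Hom.hom (prevD n h.hom)) z' +
          (ModuleCat.Hom.hom ((mcMap k g).f n)) z' := h1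
    rw [h3, zero_add, h2] at h4
    rw [h4, add_sub_cancel_right]
    rfl
  have e2 := congrArg (eqF k Y n) e1
  rw [map_sub, eqF_map, eqF_map, hzz, eqF_d] at e2
  rw [e2]
  exact ⟨_, rfl⟩

end Nat

end Pool.Agent.R979.NG
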