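import Pool.Agent.R979.NG.MV

/-! Vanishing of singular homology above the dimension. -/

namespace Pool.Agent.R979.NG

open Pool.Agent.Helper381 Finsupp Set

theorem Van_transfer {X Y : Type} [TopologicalSpace X] [TopologicalSpace Y] {U : Set X} {V : Set Y}
    (f : X → Y) (g : Y → X) (hf : ContinuousOn f U) (hg : ContinuousOn g V)
    (hfU : MapsTo f U V) (hgV : MapsTo g V U) (hgf : ∀ x ∈ U, g (f x) = x) (m : ℕ)
    (h : Van V m) : Van U m := by
  rw [Van_iff] at h ⊢
  refine VanT_retract (Y := V) ⟨fun x => ⟨f x.1, hfU x.2⟩, ?_⟩ ⟨fun y => ⟨g y.1, hgV y.2⟩, ?_⟩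
    ?_ m h
  · exact (hf.domRestrict).subtype_mk _
  · exact (hg.domRestrict).subtype_mk _
  · intro x
    exact Subtype.ext (hgf x.1 x.2)

theorem Van_prod {Y : Type} [TopologicalSpace Y] (Ω : Set Y) (a b : ℝ) (m : ℕ)
    (h : Van Ω m) : Van (Ω ×ˢ Ioo a b) m := by
  rcases le_or_gt b a with hab | hab
  · rw [Ioo_eq_empty (not_lt.mpr hab), prod_empty]
    exact Van_empty m
  rw [Van_iff] at h ⊢
  set c : ℝ := (a + b) / 2 with hc
  have hcI : c ∈ Ioo a b := ⟨by linarith, by linarith⟩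
  let f : C(↥(Ω ×ˢ Ioo a b), Ω) := ⟨fun x => ⟨x.1.1, x.2.1⟩, by fun_prop⟩
  let g : C(Ω, ↥(Ω ×ˢ Ioo a b)) := ⟨fun y => ⟨(y.1, c), y.2, hcI⟩, by fun_prop⟩
  refine VanT_homotopy f g ⟨⟨⟨fun p => ⟨(p.2.1.1, (1 - p.1.1) * c + p.1.1 * p.2.1.2), p.2.2.1, ?_⟩,
    by fun_prop⟩, ?_, ?_⟩⟩ m h
  · have h1 := p.2.2.2
    exact (convex_Ioo a b) hcI h1 (by linarith [p.1.2.2]) p.1.2.1 (by ring)
  · intro x
    apply Subtype.ext
    simp [f, g]
  · intro x
    apply Subtype.ext
    simp

theorem slab {Y : Type} [MetricSpace Y] (n : ℕ)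
    (hA : ∀ Ω : Set Y, IsOpen Ω → ∀ a b : ℝ, Van (Ω ×ˢ Ioo a b) n)
    (hB : ∀ Ω Ω' : Set Y, IsOpen Ω → IsOpen Ω' → ∀ a b a' b' : ℝ,
      ∀ c ∈ CS ((Ω ×ˢ Ioo a b) ∩ (Ω' ×ˢ Ioo a' b')) n, Bd (Ω' ×ˢ Ioo a' b') n c →
        Bd ((Ω ×ˢ Ioo a b) ∩ (Ω' ×ˢ Ioo a' b')) n c)
    (U : Set (Y × ℝ)) (hU : IsOpen U) : Van U n := by
  classical
  intro z hz hb
  -- the carrier
  set K : Set (Y × ℝ) := ⋃ σ ∈ z.support, Set.range σ with hK
  have hKc : IsCompact K := by
    apply z.support.isCompact_biUnion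
    intro σ _
    exact isCompact_range σ.continuous
  have hKU : K ⊆ U := by
    intro x hx
    simp only [hK, mem_iUnion] at hx
    obtain ⟨σ, hσ, hx⟩ := hx
    exact hz hσ hx
  have hzK : ∀ V : Set (Y × ℝ), K ⊆ V → z ∈ CS V (n + 1) := by
    intro V hV σ hσ
    refine (Set.Subset.trans ?_ hV)
    intro x hx
    simp only [hK, mem_iUnion]
    exact ⟨σ, hσ, hx⟩
  obtain ⟨δ, hδ, hthick⟩ := hKc.exists_thickening_subset_open hU hKU
  obtain ⟨a, ha⟩ : ∃ a : ℝ, ∀ x ∈ K, a < x.2 := by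
    have := (hKc.image continuous_snd).bddBelow
    obtain ⟨a, ha⟩ := this
    exact ⟨a - 1, fun x hx => by linarith [ha ⟨x, hx, rfl⟩]⟩
  obtain ⟨b, hbb⟩ : ∃ b : ℝ, ∀ x ∈ K, x.2 < b := by
    have := (hKc.image continuous_snd).bddAbove
    obtain ⟨a, ha⟩ := this
    exact ⟨a + 1, fun x hx => by linarith [ha ⟨x, hx, rfl⟩]⟩
  set η : ℝ := δ / 2 with hη
  have hη0 : 0 < η := by positivity
  let lo : ℕ → ℝ := fun j => a + j * η - η / 4
  let hi : ℕ → ℝ := fun j => a + (j + 1) * η + η / 4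
  let Ω : ℕ → Set Y := fun j => {y | ∀ s ∈ Icc (lo j) (hi j), (y, s) ∈ U}
  have hΩ : ∀ j, IsOpen (Ω j) := by
    intro j
    rw [isOpen_iff_mem_nhds]
    intro y hy
    obtain ⟨u, v, hu, hv, hyu, hv2, huv⟩ := generalized_tube_lemma (isCompact_singleton (x := y))
      (isCompact_Icc (a := lo j) (b := hi j)) hU (by
        rintro ⟨y', s⟩ ⟨h1, h2⟩
        rw [mem_singleton_iff] at h1
        simp only at h1 h2
        rw [h1]
        exact hy s h2)
    refine Filter.mem_of_superset (hu.mem_nhds (hyu rfl)) ?_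
    intro y' hy' s hs
    exact huv ⟨hy', hv2 hs⟩
  let V : ℕ → Set (Y × ℝ) := fun j => Ω j ×ˢ Ioo (lo j) (hi j)
  have hVo : ∀ j, IsOpen (V j) := fun j => (hΩ j).prod isOpen_Ioo
  have hVU : ∀ j, V j ⊆ U := by
    rintro j ⟨y, s⟩ ⟨h1, h2⟩
    exact h1 s ⟨h2.1.le, h2.2.le⟩
  let A : ℕ → Set (Y × ℝ) := fun k => ⋃ j ∈ Finset.range k, V j
  have hAo : ∀ k, IsOpen (A k) := fun k => isOpen_biUnion fun j _ => hVo j
  have hAs : ∀ k, A (k + 1) = A k ∪ V k := by
    intro k
    ext x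
    simp only [A, mem_iUnion, Finset.mem_range, exists_prop, mem_union]
    constructor
    · rintro ⟨j, hj, hx⟩
      rcases Nat.lt_succ_iff_lt_or_eq.mp hj with h | h
      · exact Or.inl ⟨j, h, hx⟩
      · subst h; exact Or.inr hx
    · rintro (⟨j, hj, hx⟩ | hx)
      · exact ⟨j, by omega, hx⟩
      · exact ⟨k, by omega, hx⟩
  have hVan : ∀ k, Van (A k) n := by
    intro k
    induction k with
    | zero =>
      have : A 0 = ∅ := by simp [A]
      rw [this]
      exact Van_empty n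
    | succ k ih =>
      rw [hAs]
      apply mv (hAo k) (hVo k) n ih (hA _ (hΩ k) _ _)
      intro c hc hbd
      cases k with
      | zero =>
        have : A 0 = ∅ := by simp [A]
        rw [this, empty_inter] at hc ⊢
        rw [CS_empty, Submodule.mem_bot] at hc
        exact ⟨0, Submodule.zero_mem _, by rw [hc, map_zero]⟩
      | succ k =>
        have hint : A (k + 1) ∩ V (k + 1) = V k ∩ V (k + 1) := by
          ext x
          constructor
          · rintro ⟨h1, h2⟩
            refine ⟨?_, h2⟩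
            simp only [A, mem_iUnion, Finset.mem_range, exists_prop] at h1
            obtain ⟨j, hj, hx⟩ := h1
            rcases Nat.lt_succ_iff_lt_or_eq.mp hj with h | h
            · exfalso
              have h3 := hx.2.2
              have h4 := h2.2.1
              simp only [lo, hi] at h3 h4
              have h5 : (j : ℝ) + 1 ≤ k := by exact_mod_cast h
              push_cast at h4
              nlinarith
            · rw [← h]; exact hx
          · rintro ⟨h1, h2⟩
            refine ⟨?_, h2⟩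
            simp only [A, mem_iUnion, Finset.mem_range, exists_prop]
            exact ⟨k, by omega, h1⟩
        rw [hint] at hc ⊢
        exact hB _ _ (hΩ k) (hΩ (k + 1)) _ _ _ _ c hc hbd
  have hAU : ∀ k, A k ⊆ U := by
    intro k x hx
    simp only [A, mem_iUnion] at hx
    obtain ⟨j, _, hx⟩ := hx
    exact hVU j hx
  obtain ⟨N, hN⟩ := exists_nat_gt ((b - a) / η)
  have hKA : K ⊆ A N := by
    rintro ⟨y, s⟩ hx
    have h1 : a < s := ha _ hx
    have h2 : s < b := hbb _ hx
    have h3 : 0 ≤ (s - a) / η := div_nonneg (by linarith) hη0.le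
    set j := ⌊(s - a) / η⌋₊ with hj
    have h4 : (j : ℝ) ≤ (s - a) / η := Nat.floor_le h3
    have h5 : (s - a) / η < j + 1 := Nat.lt_floor_add_one _
    rw [le_div_iff₀ hη0] at h4
    rw [div_lt_iff₀ hη0] at h5
    rw [div_lt_iff₀ hη0] at hN
    have hjN : j < N := by
      by_contra hc
      push Not at hc
      have : (N : ℝ) ≤ j := by exact_mod_cast hc
      nlinarith
    simp only [A, mem_iUnion, Finset.mem_range, exists_prop]
    refine ⟨j, hjN, ?_, ?_, ?_⟩
    · intro s' hs'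
      apply hthick
      rw [Metric.mem_thickening_iff]
      refine ⟨(y, s), hx, ?_⟩
      rw [Prod.dist_eq, dist_self]
      apply max_lt hδ
      have h6 := hs'.1
      have h7 := hs'.2
      simp only [lo, hi] at h6 h7
      change dist s' s < δ
      rw [Real.dist_eq, abs_lt]
      have : δ = 2 * η := by rw [hη]; ring
      constructor <;> nlinarith
    · change a + j * η - η / 4 < s
      linarith
    · change s < a + (j + 1) * η + η / 4
      linarith
  exact (hVan N z (hzK _ hKA) hb).mono (hAU N)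

/-- the vanishing property for all open subsets -/
def VO (Y : Type) [TopologicalSpace Y] (m : ℕ) : Prop :=
  ∀ U : Set Y, IsOpen U → ∀ n, m ≤ n → Van U n

theorem VO_prod {Y : Type} [MetricSpace Y] (m : ℕ) (h : VO Y m) : VO (Y × ℝ) (m + 1) := by
  intro U hU n hn
  obtain ⟨n, rfl⟩ := Nat.exists_eq_add_of_le' (show 1 ≤ n by omega)
  apply slab (n + 1) _ _ U hU
  · intro Ω hΩ a b
    exact Van_prod Ω a b _ (h Ω hΩ _ (by omega))
  · intro Ω Ω' hΩ hΩ' a b a' b' c hc hbd
    rw [prod_inter_prod, Ioo_inter_Ioo] at hc ⊢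
    apply Van_prod _ _ _ n (h _ (hΩ.inter hΩ') n (by omega)) c hc
    obtain ⟨w, _, rfl⟩ := hbd
    exact sbd_sbd n w

theorem Acy_prod {Y : Type} [TopologicalSpace Y] [Subsingleton Y] (Ω : Set Y) (a b : ℝ) :
    Acy (Ω ×ˢ Ioo a b) := by
  rcases (Ω ×ˢ Ioo a b).eq_empty_or_nonempty with h | ⟨p, hp⟩
  · rw [h]; exact Acy_empty
  · apply Acy_of_cone
    refine coneData_of_nullhomotopic _ ⟨p, hp⟩ ⟨⟨fun q =>
      ⟨(q.2.1.1, (1 - q.1.1) * q.2.1.2 + q.1.1 * p.2), q.2.2.1, ?_⟩, by fun_prop⟩, ?_, ?_⟩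
    · exact (convex_Ioo a b) q.2.2.2 hp.2 (by linarith [q.1.2.2]) q.1.2.1 (by ring)
    · intro x
      apply Subtype.ext
      simp
    · intro x
      apply Subtype.ext
      apply Prod.ext
      · exact Subsingleton.elim _ _
      · simp

theorem VO_base {Y : Type} [MetricSpace Y] [Subsingleton Y] : VO (Y × ℝ) 0 := by
  intro U hU n _
  apply slab n _ _ U hU
  · intro Ω _ a b
    exact (Acy_prod Ω a b).1 n
  · intro Ω Ω' _ _ a b a' b' c hc hbd
    rw [prod_inter_prod, Ioo_inter_Ioo] at hc ⊢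
    have hacy := Acy_prod (Ω ∩ Ω') (max a a') (min b b')
    cases n with
    | zero =>
      apply hacy.2 c hc
      obtain ⟨w, _, rfl⟩ := hbd
      exact aug_sbd w
    | succ n =>
      apply hacy.1 n c hc
      obtain ⟨w, _, rfl⟩ := hbd
      exact sbd_sbd n w

theorem VO_homeo {X Y : Type} [TopologicalSpace X] [TopologicalSpace Y] (e : X ≃ₜ Y) (m : ℕ)
    (h : VO Y m) : VO X m := by
  intro U hU n hn
  refine Van_transfer (V := e '' U) e e.symm e.continuous.continuousOn
    e.symm.continuous.continuousOn (mapsTo_image _ _) ?_ (fun x _ => e.symm_apply_apply x) n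
    (h _ (e.isOpenMap U hU) n hn)
  rintro _ ⟨x, hx, rfl⟩
  rw [e.symm_apply_apply]; exact hx

/-- splitting off a coordinate -/
def finHomeo (d : ℕ) : (Fin (d + 1) → ℝ) ≃ₜ (Fin d → ℝ) × ℝ where
  toFun x := (fun i => x i.succ, x 0)
  invFun p := Fin.cons p.2 p.1
  left_inv x := by
    funext i
    refine Fin.cases ?_ (fun i => ?_) i
    · simp
    · simp
  right_inv p := by
    apply Prod.ext
    · funext i; simp
    · simp
  continuous_toFun := by fun_prop
  continuous_invFun := by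
    apply continuous_pi
    intro i
    refine Fin.cases ?_ (fun i => ?_) i
    · simpa using continuous_snd
    · simp only [Fin.cons_succ]
      fun_prop

theorem VO_fin (d : ℕ) : VO (Fin (d + 1) → ℝ) d := by
  induction d with
  | zero => exact VO_homeo (finHomeo 0) 0 VO_base
  | succ d ih => exact VO_homeo (finHomeo (d + 1)) (d + 1) (VO_prod d ih)

theorem VO_euclid (d : ℕ) : VO (EuclideanSpace ℝ (Fin (d + 1))) d :=
  VO_homeo (PiLp.homeomorph 2 (fun _ : Fin (d + 1) => ℝ)) d (VO_fin d)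

end Pool.Agent.R979.NG
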