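import Pool.Agent.R979.NG.Dim

/-! Vanishing of singular homology and real cohomology above the dimension of a manifold. -/

namespace Pool.Agent.R979.NG

open Pool.Agent.Helper381 Finsupp Set

theorem Van_chart {M H : Type} [TopologicalSpace M] [TopologicalSpace H] [ChartedSpace H M]
    (m : ℕ) (h : VO H m) (x : M) (V : Set M) (hV : IsOpen V) (hVx : V ⊆ (chartAt H x).source)
    (n : ℕ) (hn : m ≤ n) : Van V n := by
  refine Van_transfer (V := (chartAt H x) '' V) (chartAt H x) (chartAt H x).symm
    ((chartAt H x).continuousOn.mono hVx) ?_ (mapsTo_image _ _) ?_ ?_ n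
    (h _ ?_ n hn)
  · apply (chartAt H x).symm.continuousOn.mono
    rintro _ ⟨y, hy, rfl⟩
    exact (chartAt H x).map_source (hVx hy)
  · rintro _ ⟨y, hy, rfl⟩
    rw [(chartAt H x).left_inv (hVx hy)]
    exact hy
  · intro y hy
    exact (chartAt H x).left_inv (hVx hy)
  · exact (chartAt H x).isOpen_image_of_subset_source hV hVx

theorem Van_manifold {M H : Type} [TopologicalSpace M] [CompactSpace M] [TopologicalSpace H]
    [ChartedSpace H M] (m : ℕ) (h : VO H m) (n : ℕ) (hn : m + 1 ≤ n) : Van (univ : Set M) n := by
  classical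
  obtain ⟨t, ht⟩ := isCompact_univ.elim_finite_subcover (fun x : M => (chartAt H x).source)
    (fun x => (chartAt H x).open_source) (fun x _ => mem_iUnion.mpr ⟨x, mem_chart_source H x⟩)
  have key : ∀ s : Finset M, Van (⋃ x ∈ s, (chartAt H x).source) n := by
    intro s
    induction s using Finset.induction_on with
    | empty => simpa using Van_empty n
    | insert x s _ ih =>
      rw [Finset.set_biUnion_insert, union_comm]
      apply mv (isOpen_biUnion fun y _ => (chartAt H y).open_source) (chartAt H x).open_source n ih
        (Van_chart m h x _ (chartAt H x).open_source le_rfl n (by omega))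
      intro c hc hbd
      obtain ⟨n, rfl⟩ := Nat.exists_eq_add_of_le' (show 1 ≤ n by omega)
      apply Van_chart m h x _ ((isOpen_biUnion fun y _ => (chartAt H y).open_source).inter
        (chartAt H x).open_source) inter_subset_right n (by omega) c hc
      obtain ⟨w, _, rfl⟩ := hbd
      exact sbd_sbd n w
  have h1 := key t
  have h2 : (⋃ x ∈ t, (chartAt H x).source) = univ := univ_subset_iff.mp ht
  rwa [h2] at h1

theorem Van_subsingleton {M : Type} [TopologicalSpace M] [Subsingleton M] (n : ℕ) :
    Van (univ : Set M) n := by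
  rcases isEmpty_or_nonempty M with h | ⟨⟨p⟩⟩
  · rw [univ_eq_empty_iff.mpr h]
    exact Van_empty n
  · refine (Acy_of_cone ?_).1 n
    refine coneData_of_nullhomotopic _ ⟨p, trivial⟩ ⟨⟨fun q => q.2, by fun_prop⟩, ?_, ?_⟩
    · intro x; rfl
    · intro x
      apply Subtype.ext
      exact Subsingleton.elim _ _

theorem Van_all {M : Type} [TopologicalSpace M] [CompactSpace M] [PreconnectedSpace M] {d : ℕ}
    [ChartedSpace (EuclideanSpace ℝ (Fin d)) M] (n : ℕ) (hn : d ≤ n) : Van (univ : Set M) n := by
  cases d with
  | zero =>
    have : DiscreteTopology M := by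
      rw [discreteTopology_iff_isOpen_singleton]
      intro x
      have h1 := (chartAt (EuclideanSpace ℝ (Fin 0)) x).open_source
      have h2 : (chartAt (EuclideanSpace ℝ (Fin 0)) x).source = {x} := by
        ext y
        constructor
        · intro hy
          exact (chartAt (EuclideanSpace ℝ (Fin 0)) x).injOn hy (mem_chart_source _ x)
            (Subsingleton.elim _ _)
        · rintro rfl
          exact mem_chart_source _ _
      rwa [h2] at h1
    have : Subsingleton M := by
      rcases isEmpty_or_nonempty M with h | ⟨⟨p⟩⟩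
      · infer_instance
      · have h1 : ({p} : Set M) = univ :=
          (isClopen_discrete {p}).eq_univ ⟨p, rfl⟩
        refine ⟨fun a b => ?_⟩
        have ha : a ∈ ({p} : Set M) := by rw [h1]; trivial
        have hb : b ∈ ({p} : Set M) := by rw [h1]; trivial
        rw [mem_singleton_iff] at ha hb
        rw [ha, hb]
    exact Van_subsingleton n
  | succ d => exact Van_manifold d (VO_euclid d) n hn

/-- real cohomology vanishes when the integral homology does -/
theorem coh_vanish {X : Type} [TopologicalSpace X] (n : ℕ) (h : Van (univ : Set X) n) :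
    Module.finrank ℝ (SingCoh ℝ X (n + 1)) = 0 := by
  have key : ∀ f : Sing X (n + 1) → ℝ, altd ℝ (sface (X := X)) (n + 1) f = 0 →
      ∃ g, altd ℝ (sface (X := X)) n g = f := by
    intro f hf
    let F : (Sing X (n + 1) →₀ ℤ) →ₗ[ℤ] ℝ := Finsupp.linearCombination ℤ f
    have hF : LinearMap.ker (sbd X n) ≤ LinearMap.ker F := by
      intro z hz
      obtain ⟨w, _, rfl⟩ := h z (by
        rw [CS]
        have : {σ : Sing X (n + 1) | Set.range σ ⊆ Set.univ} = Set.univ := by ext σ; simp
        rw [this, Finsupp.supported_univ]; trivial) hz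
      rw [LinearMap.mem_ker]
      change Finsupp.linearCombination ℤ f (bd (sface (X := X)) (n + 1) w) = 0
      rw [← ev_altd, hf]
      simp [Finsupp.linearCombination_apply, Finsupp.sum]
    obtain ⟨G, hG⟩ := (Module.Baer.of_divisible ℝ).extension_property
      ((LinearMap.ker (sbd X n)).liftQ (sbd X n) le_rfl)
      (by
        rw [← LinearMap.ker_eq_bot]
        exact Submodule.ker_liftQ_eq_bot _ _ _ le_rfl)
      ((LinearMap.ker (sbd X n)).liftQ F hF)
    have hG' : ∀ z, G (sbd X n z) = F z := by
      intro z
      exact LinearMap.congr_fun hG (Submodule.Quotient.mk z)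
    refine ⟨fun σ => G (single σ 1), ?_⟩
    funext σ
    rw [altd_eq_ev]
    have h1 : Finsupp.linearCombination ℤ (fun σ => G (single σ 1)) = G := by
      apply Finsupp.lhom_ext'
      intro σ
      apply LinearMap.ext_ring
      simp
    rw [h1]
    have h2 := hG' (single σ 1)
    rw [h2]
    simp [F]
  have : Subsingleton (SingCoh ℝ X (n + 1)) := by
    refine ⟨fun a b => ?_⟩
    have hz : ∀ c : SingCoh ℝ X (n + 1), c = 0 := by
      intro c
      obtain ⟨⟨f, hf⟩, rfl⟩ := Submodule.mkQ_surjective _ c
      apply (Submodule.Quotient.mk_eq_zero _).mpr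
      exact key f hf
    rw [hz a, hz b]
  exact Module.finrank_zero_of_subsingleton

end Pool.Agent.R979.NG
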