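import Pool.Agent.R979.NG.Alg

/-! Cohomology over a field is dual to homology; elements of order two. -/

namespace Pool.Agent.R979.NG

open Pool.Agent.Helper381 Finsupp Module

variable {X : Type} [TopologicalSpace X]

theorem cob_pair {k : Type} [CommRing k] (n : ℕ) (f : Sing X n → k)
    (hf : f ∈ cobound k (fun n => Sing X n → k) (fun n => altd k (sface (X := X)) n) n)
    (z : Sing X n →₀ k) (hz : z ∈ cyck k X n) : Finsupp.linearCombination k f z = 0 := by
  cases n with
  | zero =>
    have : f = 0 := hf
    rw [this]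
    simp
  | succ m =>
    obtain ⟨g, rfl⟩ := hf
    rw [pr_bdk]
    have : bdk k (sface (X := X)) m z = 0 := hz
    rw [this, map_zero]

theorem bdk_bdk {k : Type} [CommRing k] (n : ℕ) (z : Sing X (n + 2) →₀ k) :
    bdk k (sface (X := X)) n (bdk k (sface (X := X)) (n + 1) z) = 0 := by
  classical
  have : (bdk k (sface (X := X)) n).comp (bdk k (sface (X := X)) (n + 1)) = 0 := by
    apply Finsupp.lhom_ext'
    intro σ
    apply LinearMap.ext_ring
    simp only [LinearMap.comp_apply, lsingle_apply, LinearMap.zero_apply]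
    rw [bdk_single, map_sum]
    simp only [map_smul, bdk_single, Finset.smul_sum]
    ext τ
    simp only [Finsupp.coe_finsetSum, Finset.sum_apply, Finsupp.smul_apply, smul_eq_mul,
      Finsupp.coe_zero, Pi.zero_apply]
    apply alt_cancel n (fun i j => (single (sface n i (sface (n + 1) j σ)) (1 : k)) τ)
    intro i j hij
    simp only [sface_sface n i j σ hij]
  exact LinearMap.congr_fun this z

theorem bdyk_le {k : Type} [CommRing k] (n : ℕ) : bdyk k X n ≤ cyck k X n := by
  rintro _ ⟨w, rfl⟩
  cases n with
  | zero => trivial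
  | succ m => exact bdk_bdk m w

theorem exists_proj {k C : Type} [Field k] [AddCommGroup C] [Module k C] (Z : Submodule k C) :
    ∃ p : C →ₗ[k] Z, ∀ z : Z, p z.1 = z := by
  obtain ⟨p, hp⟩ := LinearMap.exists_leftInverse_of_injective Z.subtype Z.ker_subtype
  exact ⟨p, fun z => LinearMap.congr_fun hp z⟩

theorem coh_finrank_le {k : Type} [Field k] (n : ℕ) (hfin : Module.Finite k (SingCoh k X n)) :
    finrank k (SingCoh k X n) ≤ finrank k (HK k X n) := by
  classical
  -- projection onto cycles
  obtain ⟨p, hp'⟩ := exists_proj (cyck k X n)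
  let q : cyck k X n →ₗ[k] HK k X n := Submodule.mkQ _
  have hq : ∀ z : cyck k X n, z.1 ∈ bdyk k X n → q z = 0 := fun z hz =>
    (Submodule.Quotient.mk_eq_zero _).mpr hz
  let F : Dual k (HK k X n) →ₗ[k] (Sing X n → k) :=
    LinearMap.pi (fun σ => (LinearMap.applyₗ (q (p (single σ 1)))))
  have hF : ∀ φ, Finsupp.linearCombination k (F φ) = φ.comp (q.comp p) := by
    intro φ
    apply Finsupp.lhom_ext'
    intro σ
    apply LinearMap.ext_ring
    simp [F]
  have hFk : ∀ φ, F φ ∈ LinearMap.ker (altd k (sface (X := X)) n) := by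
    intro φ
    rw [LinearMap.mem_ker]
    funext σ
    have h1 := pr_bdk (sface (X := X)) n (F φ) (single σ 1)
    rw [linearCombination_single, one_smul] at h1
    rw [h1, hF]
    have h2 : bdk k (sface (X := X)) n (single σ 1) ∈ bdyk k X n := ⟨_, rfl⟩
    simp only [LinearMap.comp_apply]
    have h3 := hp' ⟨_, bdyk_le n h2⟩
    simp only at h3
    rw [h3, hq _ h2, map_zero]
    rfl
  let Θ : Dual k (HK k X n) →ₗ[k] SingCoh k X n :=
    (Submodule.mkQ _).comp (F.codRestrict (LinearMap.ker (altd k (sface (X := X)) n)) hFk)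
  have hΘ : Function.Injective Θ := by
    rw [← LinearMap.ker_eq_bot, LinearMap.ker_eq_bot']
    intro φ hφ
    have h1 := (Submodule.Quotient.mk_eq_zero _).mp hφ
    have h2 : F φ ∈ cobound k (fun n => Sing X n → k) (fun n => altd k (sface (X := X)) n) n := h1
    apply LinearMap.ext
    intro y
    obtain ⟨z, rfl⟩ := Submodule.mkQ_surjective _ y
    have h3 := cob_pair n (F φ) h2 z.1 z.2
    rw [hF] at h3
    simp only [LinearMap.comp_apply] at h3
    rw [hp'] at h3
    exact h3
  have hD : Module.Finite k (Dual k (HK k X n)) := Module.Finite.of_injective Θ hΘ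
  have hH : Module.Finite k (HK k X n) := (Module.finite_dual_iff k).mp hD
  -- the other direction
  let L0 : (Sing X n → k) →ₗ[k] Dual k (cyck k X n) :=
    { toFun := fun f => (Finsupp.linearCombination k f).comp (cyck k X n).subtype
      map_add' := by
        intro f g
        apply LinearMap.ext
        intro z
        simp [Finsupp.linearCombination_apply, Finsupp.sum, mul_add, Finset.sum_add_distrib]
      map_smul' := by
        intro c f
        apply LinearMap.ext
        intro z
        simp only [Finsupp.linearCombination_apply, Finsupp.sum, LinearMap.comp_apply,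
          Submodule.subtype_apply, Pi.smul_apply, smul_eq_mul, RingHom.id_apply,
          LinearMap.smul_apply, Finset.mul_sum]
        refine Finset.sum_congr rfl fun i _ => ?_
        ring }
  let L1 : LinearMap.ker (altd k (sface (X := X)) n) →ₗ[k] Dual k (HK k X n) :=
    { toFun := fun f => Submodule.liftQ _ (L0 f.1) (by
        intro z hz
        rw [LinearMap.mem_ker]
        obtain ⟨w, hw⟩ := hz
        change Finsupp.linearCombination k f.1 z.1 = 0
        have hw' : bdk k (sface (X := X)) n w = z.1 := hw
        rw [← hw', ← pr_bdk, f.2]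
        simp)
      map_add' := by
        intro f g
        apply LinearMap.ext
        intro y
        obtain ⟨z, rfl⟩ := Submodule.mkQ_surjective _ y
        change L0 (f.1 + g.1) z = L0 f.1 z + L0 g.1 z
        rw [map_add]; rfl
      map_smul' := by
        intro c f
        apply LinearMap.ext
        intro y
        obtain ⟨z, rfl⟩ := Submodule.mkQ_surjective _ y
        change L0 (c • f.1) z = c • L0 f.1 z
        rw [map_smul]; rfl }
  have hle : (cobound k (fun n => Sing X n → k) (fun n => altd k (sface (X := X)) n) n).comap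
      (LinearMap.ker (altd k (sface (X := X)) n)).subtype ≤ LinearMap.ker L1 := by
    intro f hf
    rw [LinearMap.mem_ker]
    apply LinearMap.ext
    intro y
    obtain ⟨z, rfl⟩ := Submodule.mkQ_surjective _ y
    exact cob_pair n f.1 hf z.1 z.2
  let Λ : SingCoh k X n →ₗ[k] Dual k (HK k X n) := Submodule.liftQ _ L1 hle
  have hΛ : Function.Injective Λ := by
    rw [← LinearMap.ker_eq_bot]
    apply Submodule.ker_liftQ_eq_bot
    intro f hf
    rw [LinearMap.mem_ker] at hf
    apply cob_iff n f.1
    intro z hz
    exact LinearMap.congr_fun hf (q ⟨z, hz⟩)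
  have h1 := LinearMap.finrank_le_finrank_of_injective hΛ
  rwa [Subspace.dual_finrank_eq] at h1

theorem coh_finrank_le' {k : Type} [Field k] (n : ℕ) (hfin : Module.Finite k (SingCoh k X n)) :
    finrank k (SingCoh k X n) ≤ finrank k ((MC k X).homology n) := by
  obtain ⟨e⟩ := homology_equiv k X n
  rw [e.finrank_eq]
  exact coh_finrank_le n hfin

theorem exists_order_two (n : ℕ) (h : ¬ NoTwo X n) :
    ∃ g : ((MC ℤ X).homology n : ModuleCat.{0} ℤ), addOrderOf g = 2 := by
  obtain ⟨e⟩ := homology_equiv ℤ X n
  unfold NoTwo at h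
  push Not at h
  obtain ⟨z, hz, h2, h3⟩ := h
  have hp : Fact (Nat.Prime 2) := ⟨Nat.prime_two⟩
  let c : HK ℤ X n := Submodule.Quotient.mk ⟨z, hz⟩
  have hc0 : c ≠ 0 := fun h => h3
    ((Submodule.Quotient.mk_eq_zero ((bdyk ℤ X n).comap (cyck ℤ X n).subtype)).mp h)
  have hc2 : c + c = 0 := by
    apply (Submodule.Quotient.mk_eq_zero ((bdyk ℤ X n).comap (cyck ℤ X n).subtype)).mpr
    change z + z ∈ bdyk ℤ X n
    rwa [← two_zsmul]
  refine ⟨e.symm c, addOrderOf_eq_prime ?_ ?_⟩
  · rw [two_nsmul, ← map_add, hc2, map_zero]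
  · rw [Ne, LinearEquiv.map_eq_zero_iff]
    exact hc0

end Pool.Agent.R979.NG
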