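import Pool.Agent.R979.NG.Symm2
import Pool.Agent.R979.NG.Dim2
import Pool.Agent.R979.NG.Hom
import Pool.Agent.Helper381.Riem3
import Pool.Agent.Helper381.Main

/-! Symmetries of compact Riemannian manifolds and the torsion theorem. -/

namespace Pool.Agent.R979.NG

open Pool.Agent.Helper381 Bundle Manifold Set Metric Filter
open scoped ContDiff Topology

universe u v

theorem iso_surj {M : Type u} [MetricSpace M] [CompactSpace M] {T : M → M} (hT : Isometry T) :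
    Function.Surjective T := by
  intro y
  by_contra hcon
  have hcl : IsClosed (Set.range T) := (isCompact_range hT.continuous).isClosed
  have hy : y ∈ (Set.range T)ᶜ := fun ⟨x, hx⟩ => hcon ⟨x, hx⟩
  obtain ⟨ε, hε, hball⟩ := Metric.isOpen_iff.mp hcl.isOpen_compl y hy
  have hfar : ∀ k : ℕ, ε ≤ dist y (T^[k + 1] y) := by
    intro k
    by_contra hc
    push Not at hc
    apply hball (show T^[k + 1] y ∈ ball y ε by rwa [mem_ball, dist_comm])
    rw [Function.iterate_succ_apply']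
    exact ⟨_, rfl⟩
  have hiso : ∀ n : ℕ, Isometry (T^[n]) := by
    intro n
    induction n with
    | zero => exact isometry_id
    | succ n ih => rw [Function.iterate_succ]; exact ih.comp hT
  obtain ⟨a, φ, hφ, hlim⟩ := CompactSpace.tendsto_subseq (fun n => T^[n] y)
  have hc := hlim.cauchySeq
  rw [Metric.cauchySeq_iff'] at hc
  obtain ⟨N, hN⟩ := hc ε hε
  have h1 := hN (N + 1) (Nat.le_succ N)
  have h2 : φ N < φ (N + 1) := hφ (Nat.lt_succ_self N)
  obtain ⟨k, hk⟩ := Nat.exists_eq_add_of_lt h2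
  have h3 : T^[φ (N + 1)] y = T^[φ N] (T^[k + 1] y) := by
    rw [hk, add_assoc, Function.iterate_add_apply]
  simp only [Function.comp_apply] at h1
  rw [h3, dist_comm, (hiso _).dist_eq] at h1
  exact absurd (hfar k) (not_le.mpr h1)

section Chart

variable {E : Type v} [NormedAddCommGroup E] [NormedSpace ℝ E] [FiniteDimensional ℝ E]
  {M : Type u} [MetricSpace M] [ChartedSpace E M] [IsManifold 𝓘(ℝ, E) ∞ M]
  [RiemannianBundle (fun (x : M) ↦ TangentSpace 𝓘(ℝ, E) x)]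
  [IsContMDiffRiemannianBundle 𝓘(ℝ, E) ∞ E (fun (x : M) ↦ TangentSpace 𝓘(ℝ, E) x)]
  [IsRiemannianManifold 𝓘(ℝ, E) M]

theorem exists_loc' (p : M) : ∃ c : Loc M E, c.ψ = psi (E := E) p ∧
    c.φ = extChartAt 𝓘(ℝ, E) p ∧ c.x₀ = extChartAt 𝓘(ℝ, E) p p := by
  obtain ⟨g, hgx, hgt, hG⟩ := exists_metCoef (E := E) p
  refine ⟨{ toMetCoef := g, φ := extChartAt 𝓘(ℝ, E) p, ψ := psi p,
            φψ := fun v hv => (extChartAt 𝓘(ℝ, E) p).right_inv (hgt hv),
            isOpen_image := fun V hV hVo => isOpen_psi_image p (hV.trans hgt) hVo,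
            contφ := ?_, contψ := (continuousOn_extChartAt_symm p).mono hgt,
            up := ?_, lo := ?_ }, rfl, rfl, hgx⟩
  · apply (continuousOn_extChartAt p).mono
    rintro _ ⟨v, hv, rfl⟩
    exact (extChartAt 𝓘(ℝ, E) p).map_target (hgt hv)
  · intro x hx y hy K hK h
    apply up_chart p _ K hK
    · intro t ht
      have := h t ht
      rwa [hG] at this
    · intro t ht
      apply hgt
      have := (convex_ball g.x₀ g.r) hx hy (by linarith [ht.2] : (0 : ℝ) ≤ 1 - t) ht.1 (by ring)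
      have e : (1 - t) • x + t • y = x + t • (y - x) := by module
      rwa [e] at this
  · intro x hx s K hs hK h y hy
    obtain ⟨w, hw, hwy, hle⟩ := lo_chart p hgt hx hs hK (by
      intro w hw
      have := h w (by rw [hG]; exact hw)
      refine ⟨this.1, fun v => ?_⟩
      have h2 := this.2 v
      rwa [hG, hG] at h2) y hy
    exact ⟨w, hw, hwy, by rw [hG]; exact hle⟩

omit [FiniteDimensional ℝ E] [IsManifold 𝓘(ℝ, E) ∞ M]
  [RiemannianBundle (fun (x : M) ↦ TangentSpace 𝓘(ℝ, E) x)]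
  [IsContMDiffRiemannianBundle 𝓘(ℝ, E) ∞ E (fun (x : M) ↦ TangentSpace 𝓘(ℝ, E) x)]
  [IsRiemannianManifold 𝓘(ℝ, E) M] in
theorem ref_of_mfderiv (p : M) (c : Loc M E) (hψ : c.ψ = psi (E := E) p)
    (hφ : c.φ = extChartAt 𝓘(ℝ, E) p) (hx₀ : c.x₀ = extChartAt 𝓘(ℝ, E) p p) (s : M → M)
    (hsp : s p = p) (hd : ∀ v : E, (mfderiv 𝓘(ℝ, E) 𝓘(ℝ, E) s p : E →L[ℝ] E) v = - v) :
    Ref c s := by
  by_cases hmd : MDifferentiableAt 𝓘(ℝ, E) 𝓘(ℝ, E) s p
  · have h1 := hmd.hasMFDerivAt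
    have h2 := h1.2
    have hw : writtenInExtChartAt 𝓘(ℝ, E) 𝓘(ℝ, E) p s = hat c s := by
      funext v
      simp only [writtenInExtChartAt, Function.comp_apply, hat]
      rw [hψ, hφ, hsp]
    rw [ModelWithCorners.range_eq_univ, hasFDerivWithinAt_univ, hw, ← hx₀] at h2
    have h3 := h2.isLittleO
    have hcen : hat c s c.x₀ = c.x₀ := by
      rw [hat, hψ, hφ, hx₀]
      have : (psi (E := E) p) (extChartAt 𝓘(ℝ, E) p p) = p := extChartAt_to_inv p
      rw [this, hsp]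
    intro ε hε
    have h4 := h3.def hε
    rw [Metric.eventually_nhds_iff] at h4
    obtain ⟨δ, hδ, h5⟩ := h4
    refine ⟨δ, hδ, fun x hx => ?_⟩
    have h6 := h5 (by rwa [dist_eq_norm])
    rw [hcen] at h6
    let D : E →L[ℝ] E := mfderiv 𝓘(ℝ, E) 𝓘(ℝ, E) s p
    have hD : D (x - c.x₀) = - (x - c.x₀) := hd _
    have h6' : ‖hat c s x - c.x₀ - D (x - c.x₀)‖ ≤ ε * ‖x - c.x₀‖ := h6
    rw [hD, sub_neg_eq_add] at h6'
    exact h6'
  · have h0 : mfderiv 𝓘(ℝ, E) 𝓘(ℝ, E) s p = 0 := mfderiv_zero_of_not_mdifferentiableAt hmd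
    have hv : ∀ v : E, v = 0 := by
      intro v
      have := hd v
      rw [h0] at this
      have h2 : (0 : E) = - v := this
      exact neg_eq_zero.mp h2.symm
    intro ε hε
    refine ⟨1, one_pos, fun x _ => ?_⟩
    rw [hv (hat c s x - c.x₀ + (x - c.x₀)), hv (x - c.x₀)]
    simp

end Chart

section Sym

variable {E : Type v} [NormedAddCommGroup E] [NormedSpace ℝ E] [FiniteDimensional ℝ E]
  {M : Type u} [MetricSpace M] [ChartedSpace E M] [IsManifold 𝓘(ℝ, E) ∞ M]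
  [RiemannianBundle (fun (x : M) ↦ TangentSpace 𝓘(ℝ, E) x)]
  [IsContMDiffRiemannianBundle 𝓘(ℝ, E) ∞ E (fun (x : M) ↦ TangentSpace 𝓘(ℝ, E) x)]
  [IsRiemannianManifold 𝓘(ℝ, E) M] [CompactSpace M] [PreconnectedSpace M]

theorem exists_symmetry (p : M) (s : M → M) (hs : Isometry s) (hsp : s p = p)
    (hd : ∀ v : E, (mfderiv 𝓘(ℝ, E) 𝓘(ℝ, E) s p : E →L[ℝ] E) v = - v) :
    ∃ t : M ≃ᵢ M, IsSymmetryAt p t ∧ ∀ y, t y = s y := by
  obtain ⟨R, G⟩ := riemannian_geo (E := E) (M := M)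
  obtain ⟨c, hψ, hφ, hx₀⟩ := exists_loc' (E := E) p
  have hcp : c.ψ c.x₀ = p := by
    rw [hψ, hx₀]
    exact extChartAt_to_inv p
  have href := ref_of_mfderiv p c hψ hφ hx₀ s hsp hd
  have hfix : s (c.ψ c.x₀) = c.ψ c.x₀ := by rw [hcp]; exact hsp
  have hmid : ∀ x y : M, ∃ m : M, dist x m = dist x y / 2 ∧ dist m y = dist x y / 2 := G.midpt
  have htan := Ref.sq hs hfix href
  have hiso2 : Isometry (fun z => s (s z)) := hs.comp hs
  obtain ⟨δ, hδ, htriv⟩ := trivial_near hmid hiso2 (by simp only [hfix]) htan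
  let θ : M ≃ᵢ M := IsometryEquiv.mk (Equiv.ofBijective (fun z => s (s z))
    ⟨hiso2.injective, iso_surj hiso2⟩) hiso2
  have hid := G.eq_id θ (x := c.ψ c.x₀) ⟨δ, hδ, htriv⟩
  have hinv : ∀ y, s (s y) = y := hid
  refine ⟨IsometryEquiv.mk ⟨s, s, hinv, hinv⟩ hs, ⟨hinv, hsp, ?_⟩, fun y => rfl⟩
  obtain ⟨ε, hε, h⟩ := href.isolated
  rw [hcp] at h
  exact ⟨ε, hε, h⟩

end Sym

open Module in
theorem main_metric {d : ℕ} {M : Type} [MetricSpace M]
    [ChartedSpace (EuclideanSpace ℝ (Fin d)) M]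
    [IsManifold (𝓡 d) ∞ M]
    [RiemannianBundle (fun x : M ↦ TangentSpace (𝓡 d) x)]
    [IsContMDiffRiemannianBundle (𝓡 d) ∞ (EuclideanSpace ℝ (Fin d))
      (fun x : M ↦ TangentSpace (𝓡 d) x)]
    [IsRiemannianManifold (𝓡 d) M]
    [CompactSpace M] [PreconnectedSpace M]
    (s : M → M → M)
    (hs : ∀ x : M, Isometry (s x) ∧ s x x = x ∧
      mfderiv (𝓡 d) (𝓡 d) (s x) x = -ContinuousLinearMap.id ℝ (EuclideanSpace ℝ (Fin d)))
    (A : Finset M) (hA : ∀ x ∈ A, ∀ y ∈ A, s x y = y)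
    (hlt : (∑ i ∈ Finset.range (d + 1), finrank ℝ ((MC ℝ M).homology i)) < A.card) :
    ∃ i : ℕ, ∃ g : ((MC ℤ M).homology i : ModuleCat.{0} ℤ), addOrderOf g = 2 := by
  by_contra hno
  push Not at hno
  have hnotwo : ∀ n, NoTwo M n := by
    intro n
    by_contra h
    obtain ⟨g, hg⟩ := exists_order_two n h
    exact hno n g hg
  have hne : Nonempty M := by
    have : 0 < A.card := by omega
    obtain ⟨x, _⟩ := Finset.card_pos.mp this
    exact ⟨x⟩
  obtain ⟨R, G⟩ := riemannian_geo (E := EuclideanSpace ℝ (Fin d)) (M := M)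
  have hanti : IsAntipodal (A : Set M) := by
    intro x hx y hy
    obtain ⟨h1, h2, h3⟩ := hs x
    obtain ⟨t, ht, hts⟩ := exists_symmetry (E := EuclideanSpace ℝ (Fin d)) x (s x) h1 h2 (by
      intro v
      rw [h3]
      rfl)
    exact ⟨t, ht, by rw [hts]; exact hA x hx y hy⟩
  have h1 := G.card_le A hanti
  have : Fact (Nat.Prime 2) := ⟨Nat.prime_two⟩
  obtain ⟨a1, N1, b1⟩ := G.betti_finite (ZMod 2)
  obtain ⟨a2, N2, b2⟩ := G.betti_finite ℝ
  set N := max N1 (d + 1) with hN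
  rw [totalBetti_eq N a1 (fun n hn => b1 n ((le_max_left _ _).trans hn)), Nat.cast_le] at h1
  have h2 : ∑ n ∈ Finset.range N, finrank (ZMod 2) (SingCoh (ZMod 2) M n) ≤
      ∑ n ∈ Finset.range N, finrank ℝ (SingCoh ℝ M n) := by
    apply Finset.sum_le_sum
    intro n _
    exact dim_le n (hnotwo n) (fun m _ => hnotwo m) (a2 n)
  have h3 : ∑ n ∈ Finset.range N, finrank ℝ (SingCoh ℝ M n) =
      ∑ n ∈ Finset.range (d + 1), finrank ℝ (SingCoh ℝ M n) := by
    symm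
    apply Finset.sum_subset (Finset.range_mono (le_max_right _ _))
    intro n _ hn
    rw [Finset.mem_range, not_lt] at hn
    obtain ⟨n, rfl⟩ := Nat.exists_eq_add_of_le' (show 1 ≤ n by omega)
    exact coh_vanish n (Van_all (d := d) n (by omega))
  have h4 : ∑ n ∈ Finset.range (d + 1), finrank ℝ (SingCoh ℝ M n) ≤
      ∑ i ∈ Finset.range (d + 1), finrank ℝ ((MC ℝ M).homology i) := by
    apply Finset.sum_le_sum
    intro n _
    exact coh_finrank_le' n (a2 n)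
  omega

end Pool.Agent.R979.NG
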