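import Pool.Agent.R979.NG.Bridge
import Pool.Agent.Helper381.Cone

/-! Mayer-Vietoris arguments for singular chains supported in open subsets. -/

namespace Pool.Agent.R979.NG

open Pool.Agent.Helper381 Finsupp Set

section Basic

variable {X : Type} [TopologicalSpace X]

/-- chains in a subset -/
noncomputable def CS (U : Set X) (n : ℕ) : Submodule ℤ (Sing X n →₀ ℤ) :=
  Finsupp.supported ℤ ℤ {σ : Sing X n | Set.range σ ⊆ U}

/-- bounding in a subset -/
def Bd (U : Set X) (n : ℕ) (z : Sing X n →₀ ℤ) : Prop := ∃ w ∈ CS U (n + 1), sbd X n w = z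

/-- vanishing of the homology of `U` in degree `m + 1` -/
def Van (U : Set X) (m : ℕ) : Prop := ∀ z ∈ CS U (m + 1), sbd X m z = 0 → Bd U (m + 1) z

theorem CS_mono {U V : Set X} (h : U ⊆ V) (n : ℕ) : CS U n ≤ CS V n :=
  Finsupp.supported_mono (fun _ hσ => hσ.trans h)

theorem Bd.mono {U V : Set X} (h : U ⊆ V) {n : ℕ} {z : Sing X n →₀ ℤ} (hz : Bd U n z) :
    Bd V n z := by
  obtain ⟨w, hw, e⟩ := hz
  exact ⟨w, CS_mono h _ hw, e⟩

theorem sbd_CS {U : Set X} (n : ℕ) {z : Sing X (n + 1) →₀ ℤ} (hz : z ∈ CS U (n + 1)) :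
    sbd X n z ∈ CS U n := by
  refine supported_map _ (sbd X n) _ ?_ z hz
  intro σ hσ
  rw [sbd, bd_single]
  apply Submodule.sum_mem
  intro i _
  apply Submodule.smul_mem
  exact single_mem_supported' ((range_sface n i σ).trans hσ)

theorem CS_empty (n : ℕ) : CS (∅ : Set X) n = ⊥ := by
  rw [eq_bot_iff]
  intro z hz
  have : {σ : Sing X n | Set.range σ ⊆ (∅ : Set X)} = ∅ := by
    ext σ
    simp only [mem_ofPred_eq, mem_empty_iff_false, iff_false]
    intro h
    exact h ⟨vert n 0, rfl⟩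
  rw [CS, this, Finsupp.supported_empty] at hz
  exact hz

theorem Van_empty (n : ℕ) : Van (∅ : Set X) n := by
  intro z hz _
  rw [CS_empty, Submodule.mem_bot] at hz
  exact ⟨0, Submodule.zero_mem _, by rw [hz, map_zero]⟩

theorem CS_inter (U V : Set X) (n : ℕ) : CS (U ∩ V) n = CS U n ⊓ CS V n := by
  rw [CS, CS, CS, ← Finsupp.supported_inter]
  congr 1
  ext σ
  exact subset_inter_iff

end Basic

section Push

variable {X Y : Type} [TopologicalSpace X] [TopologicalSpace Y]

theorem sbd_fpush (f : C(X, Y)) (n : ℕ) (z : Sing X (n + 1) →₀ ℤ) :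
    sbd Y n (fpush ℤ f (n + 1) z) = fpush ℤ f n (sbd X n z) := by
  have : (sbd Y n).comp (fpush ℤ f (n + 1)) = (fpush ℤ f n).comp (sbd X n) := by
    apply Finsupp.lhom_ext'
    intro σ
    apply LinearMap.ext_ring
    simp only [LinearMap.comp_apply, lsingle_apply]
    rw [fpush_single, sbd, sbd, bd_single, bd_single, map_sum]
    refine Finset.sum_congr rfl fun i _ => ?_
    rw [map_smul, fpush_single]
    rfl
  exact LinearMap.congr_fun this z

theorem fpush_CS (f : C(X, Y)) {U : Set X} {V : Set Y} (h : ∀ x ∈ U, f x ∈ V) (n : ℕ)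
    {z : Sing X n →₀ ℤ} (hz : z ∈ CS U n) : fpush ℤ f n z ∈ CS V n := by
  refine supported_map _ (fpush ℤ f n) _ ?_ z hz
  intro σ hσ
  rw [fpush_single]
  apply single_mem_supported'
  rintro _ ⟨t, rfl⟩
  exact h _ (hσ ⟨t, rfl⟩)

theorem fpush_comp {Z : Type} [TopologicalSpace Z] (g : C(Y, Z)) (f : C(X, Y)) (n : ℕ)
    (z : Sing X n →₀ ℤ) : fpush ℤ g n (fpush ℤ f n z) = fpush ℤ (g.comp f) n z := by
  have : (fpush ℤ g n).comp (fpush ℤ f n) = fpush ℤ (g.comp f) n := by
    apply Finsupp.lhom_ext'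
    intro σ
    apply LinearMap.ext_ring
    simp only [LinearMap.comp_apply, lsingle_apply]
    rw [fpush_single, fpush_single, fpush_single]
    rfl
  exact LinearMap.congr_fun this z

theorem fpush_id (n : ℕ) (z : Sing X n →₀ ℤ) : fpush ℤ (ContinuousMap.id X) n z = z := by
  have : fpush ℤ (ContinuousMap.id X) n = LinearMap.id := by
    apply Finsupp.lhom_ext'
    intro σ
    apply LinearMap.ext_ring
    simp only [LinearMap.comp_apply, lsingle_apply]
    rw [fpush_single]
    rfl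
  exact LinearMap.congr_fun this z

/-- inclusion of a subset -/
def inc (U : Set X) : C(U, X) := ⟨Subtype.val, continuous_subtype_val⟩

theorem exists_lift (U : Set X) (n : ℕ) {z : Sing X n →₀ ℤ} (hz : z ∈ CS U n) :
    ∃ z' : Sing U n →₀ ℤ, fpush ℤ (inc U) n z' = z := by
  have := supported_map _ (LinearMap.id : (Sing X n →₀ ℤ) →ₗ[ℤ] (Sing X n →₀ ℤ))
    (LinearMap.range (fpush ℤ (inc U) n)) (by
      intro σ hσ
      refine ⟨single (toC U σ hσ : Sing U n) 1, ?_⟩
      rw [fpush_single]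
      rfl) z hz
  exact this

theorem inc_injective (U : Set X) (n : ℕ) : Function.Injective (fpush ℤ (inc U) n) := by
  apply Finsupp.mapDomain_injective
  intro σ τ h
  apply ContinuousMap.ext
  intro t
  apply Subtype.ext
  exact congrArg (fun f : Sing X n => f t) h

theorem fpush_inc_mem (U : Set X) (n : ℕ) (z : Sing U n →₀ ℤ) :
    fpush ℤ (inc U) n z ∈ CS U n := by
  apply fpush_CS (inc U) (U := Set.univ) (fun x _ => x.2) n
  rw [CS]
  have : {σ : Sing U n | Set.range σ ⊆ Set.univ} = Set.univ := by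
    ext σ; simp
  rw [this, Finsupp.supported_univ]
  trivial

/-- vanishing for a space -/
def VanT (X : Type) [TopologicalSpace X] (m : ℕ) : Prop :=
  ∀ z : Sing X (m + 1) →₀ ℤ, sbd X m z = 0 → ∃ w, sbd X (m + 1) w = z

theorem Van_iff (U : Set X) (m : ℕ) : Van U m ↔ VanT U m := by
  constructor
  · intro h z hz
    obtain ⟨w, hw, e⟩ := h (fpush ℤ (inc U) (m + 1) z) (fpush_inc_mem U _ z)
      (by rw [sbd_fpush, hz, map_zero])
    obtain ⟨w', rfl⟩ := exists_lift U _ hw
    refine ⟨w', inc_injective U _ ?_⟩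
    rw [← sbd_fpush]; exact e
  · intro h z hz hb
    obtain ⟨z', rfl⟩ := exists_lift U _ hz
    obtain ⟨w, hw⟩ := h z' (by
      apply inc_injective U
      rw [← sbd_fpush, hb, map_zero])
    exact ⟨fpush ℤ (inc U) _ w, fpush_inc_mem U _ w, by rw [sbd_fpush, hw]⟩

theorem VanT_homotopy (f : C(X, Y)) (g : C(Y, X)) (H : (g.comp f).Homotopic (ContinuousMap.id X))
    (m : ℕ) (h : VanT Y m) : VanT X m := by
  intro z hz
  obtain ⟨w, hw⟩ := h (fpush ℤ f _ z) (by rw [sbd_fpush, hz, map_zero])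
  obtain ⟨H⟩ := H
  obtain ⟨u, hu⟩ := homotopy_chain ℤ (g.comp f) (ContinuousMap.id X) H (m + 1) z hz
  have e1 : fpush ℤ (g.comp f) (m + 1) z = sbd X (m + 1) (fpush ℤ g _ w) := by
    rw [sbd_fpush, hw, fpush_comp]
  rw [fpush_id, e1] at hu
  refine ⟨fpush ℤ g _ w - u, ?_⟩
  have hu' : sbd X (m + 1) u = sbd X (m + 1) (fpush ℤ g _ w) - z := hu
  rw [map_sub, hu', sub_sub_cancel]

theorem VanT_retract (f : C(X, Y)) (g : C(Y, X)) (H : ∀ x, g (f x) = x)
    (m : ℕ) (h : VanT Y m) : VanT X m := by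
  apply VanT_homotopy f g _ m h
  have : g.comp f = ContinuousMap.id X := ContinuousMap.ext H
  rw [this]

end Push

section MV

variable {X : Type} [TopologicalSpace X]

theorem small_rel {U V : Set X} (hU : IsOpen U) (hV : IsOpen V) (n : ℕ) {z : Sing X (n + 1) →₀ ℤ}
    (hz : z ∈ CS (U ∪ V) (n + 1)) (hb : sbd X n z = 0) :
    ∃ w ∈ CS (U ∪ V) (n + 2), ∃ a ∈ CS U (n + 1), ∃ b ∈ CS V (n + 1),
      z = sbd X (n + 1) w + (a + b) := by
  set W : Set X := U ∪ V with hW
  obtain ⟨z', rfl⟩ := exists_lift W _ hz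
  have hb' : sbd W n z' = 0 := by
    apply inc_injective W
    rw [← sbd_fpush, hb, map_zero]
  let C : Set (Set W) := {Subtype.val ⁻¹' U, Subtype.val ⁻¹' V}
  have hopen : ∀ c ∈ C, IsOpen c := by
    intro c hc
    rcases hc with rfl | rfl
    · exact hU.preimage continuous_subtype_val
    · exact hV.preimage continuous_subtype_val
  have hcov : ∀ x : W, ∃ c ∈ C, x ∈ c := by
    intro x
    rcases x.2 with h | h
    · exact ⟨_, Or.inl rfl, h⟩
    · exact ⟨_, Or.inr rfl, h⟩
  have h1 := rho_succ C n z'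
  rw [hb', map_zero, sub_zero] at h1
  have h2 := rho_small C hopen hcov (n + 1) z'
  have h3 : smallSet C (n + 1) = {σ : Sing W (n + 1) | Set.range σ ⊆ Subtype.val ⁻¹' U} ∪
      {σ : Sing W (n + 1) | Set.range σ ⊆ Subtype.val ⁻¹' V} := by
    ext σ
    constructor
    · rintro ⟨c, hc, hσ⟩
      rcases hc with rfl | rfl
      · exact Or.inl hσ
      · exact Or.inr hσ
    · rintro (h | h)
      · exact ⟨_, Or.inl rfl, h⟩
      · exact ⟨_, Or.inr rfl, h⟩
  rw [h3, Finsupp.supported_union] at h2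
  obtain ⟨a, ha, b, hab, h4⟩ := Submodule.mem_sup.mp h2
  refine ⟨fpush ℤ (inc W) _ (DD C (n + 1) z'), fpush_inc_mem W _ _,
    fpush ℤ (inc W) _ a, ?_, fpush ℤ (inc W) _ b, ?_, ?_⟩
  · exact fpush_CS (inc W) (U := Subtype.val ⁻¹' U) (fun x hx => hx) _ ha
  · exact fpush_CS (inc W) (U := Subtype.val ⁻¹' V) (fun x hx => hx) _ hab
  · rw [← map_add, h4, h1, sbd_fpush, ← map_add]
    congr 1
    abel

theorem mv {U V : Set X} (hU : IsOpen U) (hV : IsOpen V) (n : ℕ) (h1 : Van U n) (h2 : Van V n)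
    (h3 : ∀ c ∈ CS (U ∩ V) n, Bd V n c → Bd (U ∩ V) n c) : Van (U ∪ V) n := by
  intro z hz hb
  obtain ⟨w, hw, a, ha, b, hbV, e⟩ := small_rel hU hV n hz hb
  have e2 : sbd X n a = - sbd X n b := by
    have h4 := congrArg (sbd X n) e
    rw [hb, map_add, sbd_sbd, zero_add, map_add] at h4
    exact eq_neg_of_add_eq_zero_left h4.symm
  have hc : sbd X n a ∈ CS (U ∩ V) n := by
    rw [CS_inter]
    refine ⟨sbd_CS n ha, ?_⟩
    rw [e2]
    exact Submodule.neg_mem _ (sbd_CS n hbV)
  obtain ⟨f, hf, hfe⟩ := h3 _ hc ⟨-b, Submodule.neg_mem _ hbV, by rw [map_neg, e2]⟩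
  obtain ⟨g1, hg1, e3⟩ := h1 (a - f)
    (Submodule.sub_mem _ ha (CS_mono inter_subset_left _ hf)) (by rw [map_sub, hfe, sub_self])
  obtain ⟨g2, hg2, e4⟩ := h2 (b + f)
    (Submodule.add_mem _ hbV (CS_mono inter_subset_right _ hf))
    (by rw [map_add, hfe, e2, add_neg_cancel])
  refine ⟨w + (g1 + g2), ?_, ?_⟩
  · exact Submodule.add_mem _ hw (Submodule.add_mem _ (CS_mono subset_union_left _ hg1)
      (CS_mono subset_union_right _ hg2))
  · rw [map_add, map_add, e3, e4, e]
    abel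

end MV

section Cone

variable {X : Type} [TopologicalSpace X]

/-- sum of coefficients -/
noncomputable def aug (X : Type) [TopologicalSpace X] : (Sing X 0 →₀ ℤ) →ₗ[ℤ] ℤ :=
  Finsupp.linearCombination ℤ (fun _ => (1 : ℤ))

theorem aug_sbd (z : Sing X 1 →₀ ℤ) : aug X (sbd X 0 z) = 0 := by
  have : (aug X).comp (sbd X 0) = 0 := by
    apply Finsupp.lhom_ext'
    intro σ
    apply LinearMap.ext_ring
    simp only [LinearMap.comp_apply, lsingle_apply, LinearMap.zero_apply]
    rw [sbd, bd_single, Fin.sum_univ_two, map_add, map_smul, map_smul, aug,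
      linearCombination_single, linearCombination_single]
    simp
  exact LinearMap.congr_fun this z

/-- acyclic or empty -/
def Acy (C : Set X) : Prop := (∀ m, Van C m) ∧ ∀ c ∈ CS C 0, aug X c = 0 → Bd C 0 c

theorem Acy_empty : Acy (∅ : Set X) := by
  refine ⟨Van_empty, fun c hc _ => ?_⟩
  rw [CS_empty, Submodule.mem_bot] at hc
  exact ⟨0, Submodule.zero_mem _, by rw [hc, map_zero]⟩

theorem Acy_of_cone {C : Set X} (h : ConeData C) : Acy C := by
  obtain ⟨pt, K, hpt, hK, hKs, hK0⟩ := h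
  have hKl : ∀ n, ∀ z ∈ CS C n, Finsupp.lmapDomain ℤ ℤ (K n) z ∈ CS C (n + 1) := by
    intro n z hz
    refine supported_map _ (Finsupp.lmapDomain ℤ ℤ (K n)) _ ?_ z hz
    intro σ hσ
    rw [lmapDomain_apply, mapDomain_single]
    exact single_mem_supported' (hK n σ hσ).1
  constructor
  · intro m z hz hb
    refine ⟨Finsupp.lmapDomain ℤ ℤ (K (m + 1)) z, hKl _ z hz, ?_⟩
    have key := supported_map _ ((sbd X (m + 1)).comp (Finsupp.lmapDomain ℤ ℤ (K (m + 1))) +
      (Finsupp.lmapDomain ℤ ℤ (K m)).comp (sbd X m) - LinearMap.id) ⊥ (by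
        intro σ hσ
        simp only [LinearMap.sub_apply, LinearMap.add_apply, LinearMap.comp_apply,
          LinearMap.id_apply, lmapDomain_apply, mapDomain_single]
        rw [Submodule.mem_bot, sbd, sbd, bd_single, bd_single, Fin.sum_univ_succ, mapDomain_finsetSum]
        simp only [Fin.val_zero, pow_zero, one_smul, Fin.val_succ, pow_succ]
        rw [(hK (m + 1) σ hσ).2, add_assoc, add_sub_assoc, ← Finset.sum_add_distrib]
        have : ∀ i : Fin (m + 2), ((-1 : ℤ) ^ (i : ℕ) * -1) •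
            single (sface (m + 1) i.succ (K (m + 1) σ)) (1 : ℤ) +
            mapDomain (K m) (((-1 : ℤ) ^ (i : ℕ)) • single (sface m i σ) (1 : ℤ)) = 0 := by
          intro i
          rw [hKs m σ hσ i, mapDomain_smul, mapDomain_single]
          simp
        rw [Finset.sum_congr rfl (fun i _ => this i)]
        simp) z hz
    rw [Submodule.mem_bot] at key
    simp only [LinearMap.sub_apply, LinearMap.add_apply, LinearMap.comp_apply,
      LinearMap.id_apply] at key
    rw [hb, map_zero, add_zero, sub_eq_zero] at key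
    exact key
  · intro c hc ha
    refine ⟨Finsupp.lmapDomain ℤ ℤ (K 0) c, hKl _ c hc, ?_⟩
    have key := supported_map _ ((sbd X 0).comp (Finsupp.lmapDomain ℤ ℤ (K 0)) +
      (LinearMap.toSpanSingleton ℤ _ (single (ContinuousMap.const _ pt : Sing X 0) (1 : ℤ))).comp
        (aug X) - LinearMap.id) ⊥ (by
        intro σ hσ
        simp only [LinearMap.sub_apply, LinearMap.add_apply, LinearMap.comp_apply,
          LinearMap.id_apply, lmapDomain_apply, mapDomain_single,
          LinearMap.toSpanSingleton_apply]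
        rw [Submodule.mem_bot, sbd, bd_single, Fin.sum_univ_two, (hK 0 σ hσ).2, hK0 σ hσ, aug,
          linearCombination_single]
        simp) c hc
    rw [Submodule.mem_bot] at key
    simp only [LinearMap.sub_apply, LinearMap.add_apply, LinearMap.comp_apply,
      LinearMap.id_apply, LinearMap.toSpanSingleton_apply] at key
    rw [ha, zero_smul, add_zero, sub_eq_zero] at key
    exact key

end Cone

end Pool.Agent.R979.NG
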