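import Pool.Agent.Helper381.Loc

/-! Isometries with trivial derivative at a fixed point are trivial near that point. -/

namespace Pool.Agent.R979.NG

open Pool.Agent.Helper381 Metric Set

universe u v

/-- the function `x ^ (3/2)` -/
noncomputable def hh (x : ℝ) : ℝ := x * Real.sqrt x

theorem hh_nonneg {x : ℝ} (hx : 0 ≤ x) : 0 ≤ hh x := mul_nonneg hx (Real.sqrt_nonneg x)

theorem hh_mono {x y : ℝ} (hx : 0 ≤ x) (h : x ≤ y) : hh x ≤ hh y :=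
  mul_le_mul h (Real.sqrt_le_sqrt h) (Real.sqrt_nonneg x) (hx.trans h)

theorem hh_sq {x : ℝ} (hx : 0 ≤ x) : hh x ^ 2 = x ^ 3 := by
  rw [hh, mul_pow, Real.sq_sqrt hx]; ring

theorem hh_mul {L x : ℝ} (hL : 0 ≤ L) (hx : 0 ≤ x) : hh (L ^ 2 * x) = L ^ 3 * hh x := by
  rw [hh, hh, Real.sqrt_mul (by positivity), Real.sqrt_sq hL]
  ring

theorem sqrt_two_lo : (1.4 : ℝ) ≤ Real.sqrt 2 := by
  apply Real.le_sqrt_of_sq_le; norm_num

theorem sqrt_two_hi : Real.sqrt 2 ≤ (1.42 : ℝ) := by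
  rw [Real.sqrt_le_left (by norm_num)]; norm_num

variable {M : Type u} {E : Type v} [MetricSpace M] [NormedAddCommGroup E] [NormedSpace ℝ E]
  (c : Loc M E)

theorem mid_est : ∃ K : ℝ, 0 ≤ K ∧ ∀ ρ : ℝ, 0 < ρ → ρ ≤ c.r₁ → ρ ≤ c.τ →
    ∀ x ∈ ball c.x₀ (ρ / (2 + 2 * c.L ^ 2)), ∀ y ∈ ball c.x₀ (ρ / (2 + 2 * c.L ^ 2)),
    ∀ m : M, dist (c.ψ x) m = dist (c.ψ x) (c.ψ y) / 2 → dist m (c.ψ y) = dist (c.ψ x) (c.ψ y) / 2 →
      ∃ w ∈ ball c.x₀ ρ, c.ψ w = m ∧ ‖w - (1 / 2 : ℝ) • (x + y)‖ ≤ K * hh ‖y - x‖ := by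
  have hL := c.one_le_L
  have hC3 := c.C₃pos
  have hC := c.Cpos
  have hlam := c.lampos
  set L := c.L with hLdef
  set A : ℝ := (2 * c.C₃ * (L ^ 2 / 2) ^ 3 + 2 * c.C₃ * (L ^ 2 / 2) ^ 3 +
    2 * c.C * (L ^ 2 / 2) * (L ^ 2 / 2) ^ 2 + c.C₃) / c.lam with hA
  have hA0 : 0 ≤ A := by positivity
  refine ⟨Real.sqrt A, Real.sqrt_nonneg A, ?_⟩
  intro ρ hρ hρ1 hρτ x hx y hy m hm1 hm2
  have hρs : ρ / (2 + 2 * L ^ 2) * (2 + 2 * L ^ 2) = ρ := by field_simp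
  set ρ0 := ρ / (2 + 2 * L ^ 2) with hρ0
  have hρ0pos : 0 < ρ0 := by positivity
  have hρ0le : ρ0 ≤ ρ := by nlinarith
  have hx1 : x ∈ ball c.x₀ c.r₁ := ball_subset_ball (hρ0le.trans hρ1) hx
  have hy1 : y ∈ ball c.x₀ c.r₁ := ball_subset_ball (hρ0le.trans hρ1) hy
  have hxy : ‖y - x‖ < 2 * ρ0 := by
    have h1 := dist_triangle_right y x c.x₀
    rw [mem_ball] at hx hy
    rw [← dist_eq_norm]
    linarith
  have hD := c.dist_le hx1 hy1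
  set D := dist (c.ψ x) (c.ψ y) with hDdef
  have hD0 : 0 ≤ D := dist_nonneg
  obtain ⟨w, hw, hwm, hwn⟩ := c.in_chart hx1 (y := m) (by
    rw [hm1]
    have : c.L * ‖y - x‖ ≤ L * (2 * ρ0) := by gcongr
    nlinarith)
  rw [hm1] at hwn
  have hwn' : ‖w - x‖ ≤ L ^ 2 / 2 * ‖y - x‖ := by
    refine hwn.trans ?_
    have : L * (D / 2) ≤ L * ((L * ‖y - x‖) / 2) := by gcongr
    nlinarith
  have hwρ : w ∈ ball c.x₀ ρ := by
    rw [mem_ball] at hx ⊢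
    have h1 := dist_triangle w x c.x₀
    rw [dist_eq_norm w x] at h1
    have h2 : L ^ 2 / 2 * ‖y - x‖ ≤ L ^ 2 / 2 * (2 * ρ0) := by gcongr
    nlinarith
  have hw1 : w ∈ ball c.x₀ c.r₁ := ball_subset_ball hρ1 hwρ
  refine ⟨w, hwρ, hwm, ?_⟩
  -- the three estimates
  have e1 := c.le_dist_sq' hx1 hw1
  have e2 := c.le_dist_sq' hw1 hy1
  have e3 := c.dist_sq_le' hx1 hy1
  have hyw : ‖y - w‖ ≤ L ^ 2 / 2 * ‖y - x‖ := by
    refine (c.norm_le hw1 hy1).trans ?_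
    rw [hwm, hm2]
    have : L * (D / 2) ≤ L * ((L * ‖y - x‖) / 2) := by gcongr
    nlinarith
  rw [hwm, hm1] at e1
  rw [hwm, hm2] at e2
  have e4 := c.lip x (c.ball_sub hx1) w (c.ball_sub hw1) (y - w) (y - w)
  rw [abs_le] at e4
  set N := ‖y - x‖ with hN
  have hN0 : 0 ≤ N := norm_nonneg _
  have f1 : c.C₃ * ‖w - x‖ ^ 3 ≤ c.C₃ * (L ^ 2 / 2) ^ 3 * N ^ 3 := by
    have : ‖w - x‖ ^ 3 ≤ (L ^ 2 / 2 * N) ^ 3 := pow_le_pow_left₀ (norm_nonneg _) hwn' 3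
    rw [mul_pow] at this
    nlinarith
  have f2 : c.C₃ * ‖y - w‖ ^ 3 ≤ c.C₃ * (L ^ 2 / 2) ^ 3 * N ^ 3 := by
    have : ‖y - w‖ ^ 3 ≤ (L ^ 2 / 2 * N) ^ 3 := pow_le_pow_left₀ (norm_nonneg _) hyw 3
    rw [mul_pow] at this
    nlinarith
  have f3 : c.C * ‖x - w‖ * ‖y - w‖ * ‖y - w‖ ≤ c.C * (L ^ 2 / 2) * (L ^ 2 / 2) ^ 2 * N ^ 3 := by
    rw [norm_sub_rev x w]
    calc c.C * ‖w - x‖ * ‖y - w‖ * ‖y - w‖
        ≤ c.C * (L ^ 2 / 2 * N) * (L ^ 2 / 2 * N) * (L ^ 2 / 2 * N) := by gcongr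
      _ = _ := by ring
  -- parallelogram
  have hpar : c.G x ((w - x) - (y - w)) ((w - x) - (y - w)) =
      2 * c.G x (w - x) (w - x) + 2 * c.G x (y - w) (y - w) - c.G x (y - x) (y - x) := by
    have h1 : y - x = (w - x) + (y - w) := by abel
    rw [h1]
    simp only [map_add, map_sub, LinearMap.add_apply, LinearMap.sub_apply]
    ring
  have e5 := c.lower x (c.ball_sub hx1) ((w - x) - (y - w))
  have hvec : w - (1 / 2 : ℝ) • (x + y) = (1 / 2 : ℝ) • ((w - x) - (y - w)) := by module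
  have e6 : c.lam * ‖(w - x) - (y - w)‖ ^ 2 ≤ c.lam * (A * N ^ 3) := by
    have hAe : c.lam * (A * N ^ 3) = (2 * c.C₃ * (L ^ 2 / 2) ^ 3 + 2 * c.C₃ * (L ^ 2 / 2) ^ 3 +
      2 * c.C * (L ^ 2 / 2) * (L ^ 2 / 2) ^ 2 + c.C₃) * N ^ 3 := by
      rw [hA]; field_simp
    rw [hAe]
    nlinarith [e4.2]
  have e7 : ‖(w - x) - (y - w)‖ ^ 2 ≤ A * N ^ 3 := le_of_mul_le_mul_left e6 hlam
  have e8 : ‖(w - x) - (y - w)‖ ≤ Real.sqrt A * hh N := by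
    have h1 : (Real.sqrt A * hh N) ^ 2 = A * N ^ 3 := by
      rw [mul_pow, Real.sq_sqrt hA0, hh_sq hN0]
    rw [← h1] at e7
    exact (pow_le_pow_iff_left₀ (norm_nonneg _)
      (mul_nonneg (Real.sqrt_nonneg A) (hh_nonneg hN0)) two_ne_zero).mp e7
  rw [hvec, norm_smul]
  have : ‖(1 / 2 : ℝ)‖ = 1 / 2 := by norm_num
  rw [this]
  have h0 := norm_nonneg ((w - x) - (y - w))
  linarith

/-- coordinate expression of a map -/
def hat (T : M → M) (x : E) : E := c.φ (T (c.ψ x))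

/-- a radius on which coordinate expressions of isometries fixing the centre are controlled -/
noncomputable def ra : ℝ := min (c.r₁ / (2 * c.L ^ 2)) (c.τ / (2 * c.L ^ 2))

theorem ra_pos : 0 < ra c := by
  have hL := c.one_le_L
  have h1 := c.r₁pos
  have h2 := c.τpos
  exact lt_min (by positivity) (by positivity)

theorem ra_r₁ : c.L ^ 2 * ra c ≤ c.r₁ / 2 := by
  have hL := c.one_le_L
  have : ra c ≤ c.r₁ / (2 * c.L ^ 2) := min_le_left _ _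
  calc c.L ^ 2 * ra c ≤ c.L ^ 2 * (c.r₁ / (2 * c.L ^ 2)) := by gcongr
    _ = c.r₁ / 2 := by field_simp

theorem ra_τ : c.L ^ 2 * ra c ≤ c.τ / 2 := by
  have hL := c.one_le_L
  have : ra c ≤ c.τ / (2 * c.L ^ 2) := min_le_right _ _
  calc c.L ^ 2 * ra c ≤ c.L ^ 2 * (c.τ / (2 * c.L ^ 2)) := by gcongr
    _ = c.τ / 2 := by field_simp

theorem ra_le_mul : ra c ≤ c.L ^ 2 * ra c := by
  have hL := c.one_le_L
  have h2 := ra_pos c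
  have h3 : 1 ≤ c.L ^ 2 := by nlinarith
  nlinarith

theorem ra_le : ra c ≤ c.r₁ := by
  have h1 := ra_r₁ c
  have h2 := ra_le_mul c
  have h3 := c.r₁pos
  linarith

variable {c}

theorem hat_spec {T : M → M} (hT : Isometry T) (hp : T (c.ψ c.x₀) = c.ψ c.x₀) {x : E}
    (hx : x ∈ ball c.x₀ (ra c)) :
    c.ψ (hat c T x) = T (c.ψ x) ∧ ‖hat c T x - c.x₀‖ ≤ c.L ^ 2 * ‖x - c.x₀‖ ∧
      hat c T x ∈ ball c.x₀ c.r₁ := by
  have hL := c.one_le_L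
  have h0 : c.x₀ ∈ ball c.x₀ c.r₁ := mem_ball_self c.r₁pos
  have hx1 : x ∈ ball c.x₀ c.r₁ := ball_subset_ball (ra_le c) hx
  have hd : dist (c.ψ c.x₀) (T (c.ψ x)) ≤ c.L * ‖x - c.x₀‖ := by
    calc dist (c.ψ c.x₀) (T (c.ψ x)) = dist (T (c.ψ c.x₀)) (T (c.ψ x)) := by rw [hp]
      _ = dist (c.ψ c.x₀) (c.ψ x) := hT.dist_eq _ _
      _ ≤ _ := c.dist_le h0 hx1
  have hxr : ‖x - c.x₀‖ < ra c := by rwa [mem_ball, dist_eq_norm] at hx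
  have h1 := ra_τ c
  have h2 := c.τpos
  have h3 := ra_r₁ c
  have h4 := c.r₁pos
  obtain ⟨w, hw, hwm, hwn⟩ := c.in_chart h0 (y := T (c.ψ x)) (by
    refine lt_of_le_of_lt hd ?_
    have : c.L * ‖x - c.x₀‖ ≤ c.L * ra c := by gcongr
    have : c.L * ra c ≤ c.L ^ 2 * ra c := by
      have := ra_pos c
      have : c.L ≤ c.L ^ 2 := by nlinarith
      gcongr
    linarith)
  have hhat : hat c T x = w := by
    rw [hat, ← hwm, c.φψ w hw]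
  have hn : ‖w - c.x₀‖ ≤ c.L ^ 2 * ‖x - c.x₀‖ := by
    refine hwn.trans ?_
    have : c.L * dist (c.ψ c.x₀) (T (c.ψ x)) ≤ c.L * (c.L * ‖x - c.x₀‖) := by gcongr
    linarith [this, sq c.L, mul_assoc c.L c.L ‖x - c.x₀‖]
  rw [hhat]
  refine ⟨hwm, hn, ?_⟩
  rw [mem_ball, dist_eq_norm]
  have : c.L ^ 2 * ‖x - c.x₀‖ ≤ c.L ^ 2 * ra c := by gcongr
  linarith

theorem hat_lip {T : M → M} (hT : Isometry T) (hp : T (c.ψ c.x₀) = c.ψ c.x₀) {x y : E}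
    (hx : x ∈ ball c.x₀ (ra c)) (hy : y ∈ ball c.x₀ (ra c)) :
    ‖hat c T y - hat c T x‖ ≤ c.L ^ 2 * ‖y - x‖ := by
  have hL := c.one_le_L
  obtain ⟨a1, -, a3⟩ := hat_spec hT hp hx
  obtain ⟨b1, -, b3⟩ := hat_spec hT hp hy
  have h1 := c.norm_le a3 b3
  rw [a1, b1, hT.dist_eq] at h1
  have h2 := c.dist_le (ball_subset_ball (ra_le c) hx) (ball_subset_ball (ra_le c) hy)
  have : c.L * dist (c.ψ x) (c.ψ y) ≤ c.L * (c.L * ‖y - x‖) := by gcongr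
  linarith [this, sq c.L, mul_assoc c.L c.L ‖y - x‖]

theorem hat_center {T : M → M} (hp : T (c.ψ c.x₀) = c.ψ c.x₀) : hat c T c.x₀ = c.x₀ := by
  rw [hat, hp, c.φψ c.x₀ (mem_ball_self c.rpos)]

variable (c) in
theorem second_diff
    (hmid : ∀ x y : M, ∃ m : M, dist x m = dist x y / 2 ∧ dist m y = dist x y / 2) :
    ∃ K : ℝ, 0 ≤ K ∧ ∃ ρ : ℝ, 0 < ρ ∧ ρ ≤ ra c ∧ ∀ T : M → M, Isometry T →
      T (c.ψ c.x₀) = c.ψ c.x₀ → ∀ x ∈ ball c.x₀ ρ, ∀ y ∈ ball c.x₀ ρ,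
      ‖hat c T ((1 / 2 : ℝ) • (x + y)) - (1 / 2 : ℝ) • (hat c T x + hat c T y)‖ ≤
        K * hh ‖y - x‖ := by
  obtain ⟨K, hK, hest⟩ := mid_est c
  have hL := c.one_le_L
  have hra := ra_pos c
  have h1 := c.r₁pos
  have h2 := c.τpos
  have hden : 0 < 2 + 2 * c.L ^ 2 := by positivity
  refine ⟨K * (c.L ^ 2 + c.L ^ 3), by positivity, ra c / (2 + 2 * c.L ^ 2) , by positivity,
    ?_, ?_⟩
  · rw [div_le_iff₀ hden]
    nlinarith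
  intro T hT hp x hx y hy
  have hsub : ball c.x₀ (ra c / (2 + 2 * c.L ^ 2)) ⊆ ball c.x₀ (ra c) := by
    apply ball_subset_ball
    rw [div_le_iff₀ hden]
    nlinarith
  have hra1 : ra c ≤ c.r₁ := ra_le c
  have hraτ : ra c ≤ c.τ := by
    have := ra_τ c
    have := ra_le_mul c
    linarith
  obtain ⟨m, hm1, hm2⟩ := hmid (c.ψ x) (c.ψ y)
  obtain ⟨w, hw, hwm, hwn⟩ := hest (ra c) hra hra1 hraτ x hx y hy m hm1 hm2
  obtain ⟨a1, a2, a3⟩ := hat_spec hT hp (hsub hx)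
  obtain ⟨b1, b2, b3⟩ := hat_spec hT hp (hsub hy)
  -- the images
  have hbig : ∀ z ∈ ball c.x₀ (ra c / (2 + 2 * c.L ^ 2)), ‖hat c T z - c.x₀‖ ≤
      c.L ^ 2 * ‖z - c.x₀‖ →
      hat c T z ∈ ball c.x₀ (min c.r₁ c.τ / (2 + 2 * c.L ^ 2)) := by
    intro z hz hn
    rw [mem_ball, dist_eq_norm] at hz ⊢
    refine lt_of_le_of_lt hn ?_
    rw [lt_div_iff₀ hden] at hz ⊢
    apply lt_min
    · have := ra_r₁ c
      have h5 : c.L ^ 2 * (‖z - c.x₀‖ * (2 + 2 * c.L ^ 2)) < c.L ^ 2 * ra c := by gcongr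
      nlinarith
    · have := ra_τ c
      have h5 : c.L ^ 2 * (‖z - c.x₀‖ * (2 + 2 * c.L ^ 2)) < c.L ^ 2 * ra c := by gcongr
      nlinarith
  obtain ⟨w', hw', hwm', hwn'⟩ := hest (min c.r₁ c.τ) (lt_min h1 h2) (min_le_left _ _)
    (min_le_right _ _) (hat c T x) (hbig x hx a2) (hat c T y) (hbig y hy b2) (T m)
    (by rw [a1, b1, hT.dist_eq, hT.dist_eq, hm1]) (by rw [a1, b1, hT.dist_eq, hT.dist_eq, hm2])
  have hhat : hat c T w = w' := by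
    rw [hat, hwm, ← hwm']
    exact c.φψ w' (ball_subset_ball ((min_le_left _ _).trans (by linarith [c.r₁_lt])) hw')
  have hhalf : (1 / 2 : ℝ) • (x + y) ∈ ball c.x₀ (ra c) := Loc.half_mem_ball (hsub hx) (hsub hy)
  have h3 := hat_lip hT hp hw hhalf
  rw [hhat] at h3
  have h4 : ‖hat c T y - hat c T x‖ ≤ c.L ^ 2 * ‖y - x‖ := hat_lip hT hp (hsub hx) (hsub hy)
  have h5 : hh ‖hat c T y - hat c T x‖ ≤ c.L ^ 3 * hh ‖y - x‖ := by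
    rw [← hh_mul (by linarith) (norm_nonneg _)]
    exact hh_mono (norm_nonneg _) h4
  have h6 : hat c T ((1 / 2 : ℝ) • (x + y)) - (1 / 2 : ℝ) • (hat c T x + hat c T y) =
      (hat c T ((1 / 2 : ℝ) • (x + y)) - w') +
        (w' - (1 / 2 : ℝ) • (hat c T x + hat c T y)) := by abel
  rw [h6]
  refine (norm_add_le _ _).trans ?_
  rw [norm_sub_rev] at hwn
  have h7 : c.L ^ 2 * ‖(1 / 2 : ℝ) • (x + y) - w‖ ≤ c.L ^ 2 * (K * hh ‖y - x‖) := by gcongr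
  have h8 : K * hh ‖hat c T y - hat c T x‖ ≤ K * (c.L ^ 3 * hh ‖y - x‖) := by gcongr
  nlinarith

end Pool.Agent.R979.NG
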