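import Pool.Agent.R979.NG.Symm

/-! Isometries with trivial derivative at a fixed point are trivial near that point (end). -/

namespace Pool.Agent.R979.NG

open Pool.Agent.Helper381 Metric Set

universe u v

theorem sqrt_half {N : ℝ} (hN : 0 ≤ N) : Real.sqrt (1 / 2 * N) ≤ 3 / 4 * Real.sqrt N := by
  have h0 := Real.sqrt_nonneg N
  apply Real.sqrt_le_iff.mpr
  refine ⟨by positivity, ?_⟩
  rw [mul_pow, Real.sq_sqrt hN]
  nlinarith

theorem sqrt_double {N : ℝ} : (1.4 : ℝ) * Real.sqrt N ≤ Real.sqrt (2 * N) := by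
  rw [Real.sqrt_mul (by norm_num)]
  have := sqrt_two_lo
  have h0 := Real.sqrt_nonneg N
  gcongr

variable {M : Type u} {E : Type v} [MetricSpace M] [NormedAddCommGroup E] [NormedSpace ℝ E]
  (c : Loc M E)

/-- the coordinate expression has the identity as derivative at the centre -/
def Tan (T : M → M) : Prop :=
  ∀ ε > 0, ∃ δ > 0, ∀ x, ‖x - c.x₀‖ < δ → ‖hat c T x - x‖ ≤ ε * ‖x - c.x₀‖

theorem growth
    (hmid : ∀ x y : M, ∃ m : M, dist x m = dist x y / 2 ∧ dist m y = dist x y / 2) :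
    ∃ B : ℝ, 0 ≤ B ∧ ∃ ρ : ℝ, 0 < ρ ∧ ∀ T : M → M, Isometry T →
      T (c.ψ c.x₀) = c.ψ c.x₀ → Tan c T → ∀ x ∈ ball c.x₀ ρ,
      ‖hat c T x - x‖ ≤ B * hh ‖x - c.x₀‖ := by
  obtain ⟨K, hK, ρ, hρ, hρa, hsd⟩ := second_diff c hmid
  refine ⟨8 * K, by positivity, ρ, hρ, ?_⟩
  intro T hT hp htan
  have hcen : hat c T c.x₀ = c.x₀ := hat_center hp
  have step : ∀ x ∈ ball c.x₀ ρ, ‖hat c T x - x‖ ≤
      2 * ‖hat c T ((1 / 2 : ℝ) • (c.x₀ + x)) - (1 / 2 : ℝ) • (c.x₀ + x)‖ +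
        2 * (K * hh ‖x - c.x₀‖) := by
    intro x hx
    have h1 := hsd T hT hp c.x₀ (mem_ball_self hρ) x hx
    rw [hcen] at h1
    have h2 : hat c T x - x = (2 : ℝ) • ((hat c T ((1 / 2 : ℝ) • (c.x₀ + x)) -
        (1 / 2 : ℝ) • (c.x₀ + x)) - (hat c T ((1 / 2 : ℝ) • (c.x₀ + x)) -
          (1 / 2 : ℝ) • (c.x₀ + hat c T x))) := by module
    rw [h2, norm_smul]
    have : ‖(2 : ℝ)‖ = 2 := by norm_num
    rw [this]
    have h3 := norm_sub_le (hat c T ((1 / 2 : ℝ) • (c.x₀ + x)) -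
        (1 / 2 : ℝ) • (c.x₀ + x)) (hat c T ((1 / 2 : ℝ) • (c.x₀ + x)) -
          (1 / 2 : ℝ) • (c.x₀ + hat c T x))
    linarith
  have key : ∀ ε > 0, ∀ x ∈ ball c.x₀ ρ, ‖hat c T x - x‖ ≤
      (ε + 8 * K * Real.sqrt ‖x - c.x₀‖) * ‖x - c.x₀‖ := by
    intro ε hε
    obtain ⟨δ, hδ, hd⟩ := htan ε hε
    have ind : ∀ k : ℕ, ∀ x ∈ ball c.x₀ ρ, ‖x - c.x₀‖ < 2 ^ k * δ → ‖hat c T x - x‖ ≤
      (ε + 8 * K * Real.sqrt ‖x - c.x₀‖) * ‖x - c.x₀‖ := by
      intro k
      induction k with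
      | zero =>
        intro x hx hxd
        rw [pow_zero, one_mul] at hxd
        refine (hd x hxd).trans ?_
        have := Real.sqrt_nonneg ‖x - c.x₀‖
        have := norm_nonneg (x - c.x₀)
        have : 0 ≤ 8 * K * Real.sqrt ‖x - c.x₀‖ := by positivity
        nlinarith
      | succ k ih =>
        intro x hx hxd
        have hz : (1 / 2 : ℝ) • (c.x₀ + x) - c.x₀ = (1 / 2 : ℝ) • (x - c.x₀) := by module
        have hzn : ‖(1 / 2 : ℝ) • (c.x₀ + x) - c.x₀‖ = 1 / 2 * ‖x - c.x₀‖ := by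
          rw [hz, norm_smul]; norm_num
        have hx' : ‖x - c.x₀‖ < ρ := by rwa [mem_ball, dist_eq_norm] at hx
        have h1 := ih ((1 / 2 : ℝ) • (c.x₀ + x)) (by
          rw [mem_ball, dist_eq_norm, hzn]
          have := norm_nonneg (x - c.x₀)
          linarith) (by
          rw [hzn]
          rw [pow_succ] at hxd
          linarith)
        have h2 := step x hx
        rw [hzn] at h1
        set N := ‖x - c.x₀‖ with hN
        have hN0 : 0 ≤ N := norm_nonneg _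
        have h3 := sqrt_half hN0
        have h4 : (ε + 8 * K * Real.sqrt (1 / 2 * N)) * (1 / 2 * N) ≤
            (ε + 8 * K * (3 / 4 * Real.sqrt N)) * (1 / 2 * N) := by gcongr
        have h5 : hh N = N * Real.sqrt N := rfl
        rw [h5] at h2
        nlinarith
    intro x hx
    obtain ⟨k, hk⟩ := pow_unbounded_of_one_lt (‖x - c.x₀‖ / δ) (one_lt_two)
    exact ind k x hx (by rwa [div_lt_iff₀ hδ] at hk)
  intro x hx
  have hN0 : 0 ≤ ‖x - c.x₀‖ := norm_nonneg _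
  apply le_of_forall_pos_le_add
  intro ε hε
  have h1 := key (ε / (ρ + 1)) (by positivity) x hx
  have hx' : ‖x - c.x₀‖ < ρ := by rwa [mem_ball, dist_eq_norm] at hx
  have h2 : ε / (ρ + 1) * ‖x - c.x₀‖ ≤ ε := by
    rw [div_mul_eq_mul_div, div_le_iff₀ (by positivity)]
    nlinarith
  have h3 : hh ‖x - c.x₀‖ = ‖x - c.x₀‖ * Real.sqrt ‖x - c.x₀‖ := rfl
  rw [h3]
  nlinarith

theorem small_lip
    (hmid : ∀ x y : M, ∃ m : M, dist x m = dist x y / 2 ∧ dist m y = dist x y / 2) :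
    ∃ ρ : ℝ, 0 < ρ ∧ ρ ≤ ra c ∧ ∀ T : M → M, Isometry T →
      T (c.ψ c.x₀) = c.ψ c.x₀ → Tan c T → ∀ x ∈ ball c.x₀ ρ, ∀ y ∈ ball c.x₀ ρ,
      ‖(hat c T y - y) - (hat c T x - x)‖ ≤ 1 / 2 * ‖y - x‖ := by
  obtain ⟨K, hK, ρ1, hρ1, hρa, hsd⟩ := second_diff c hmid
  obtain ⟨B, hB, ρ2, hρ2, hgr⟩ := growth c hmid
  obtain ⟨ρ, hρ, hρ3, hρ4⟩ : ∃ ρ : ℝ, 0 < ρ ∧ 3 * ρ ≤ min ρ1 ρ2 ∧
      (6 * B + 8 * K) * Real.sqrt (3 * ρ) ≤ 1 / 2 := by
    set S := 6 * B + 8 * K + 1 with hS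
    have hS0 : 0 < S := by positivity
    refine ⟨min (min ρ1 ρ2 / 3) ((1 / (2 * S)) ^ 2 / 3), ?_, ?_, ?_⟩
    · apply lt_min
      · have := lt_min hρ1 hρ2
        positivity
      · positivity
    · have := min_le_left (min ρ1 ρ2 / 3) ((1 / (2 * S)) ^ 2 / 3)
      linarith
    · have h1 : Real.sqrt (3 * min (min ρ1 ρ2 / 3) ((1 / (2 * S)) ^ 2 / 3)) ≤ 1 / (2 * S) := by
        apply Real.sqrt_le_iff.mpr
        refine ⟨by positivity, ?_⟩
        have := min_le_right (min ρ1 ρ2 / 3) ((1 / (2 * S)) ^ 2 / 3)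
        linarith
      calc (6 * B + 8 * K) * Real.sqrt (3 * min (min ρ1 ρ2 / 3) ((1 / (2 * S)) ^ 2 / 3))
          ≤ S * (1 / (2 * S)) := by
            apply mul_le_mul _ h1 (Real.sqrt_nonneg _) hS0.le
            rw [hS]; linarith
        _ = 1 / 2 := by field_simp
  have hr1 : 3 * ρ ≤ ρ1 := hρ3.trans (min_le_left _ _)
  have hr2 : 3 * ρ ≤ ρ2 := hρ3.trans (min_le_right _ _)
  refine ⟨ρ, hρ, by linarith, ?_⟩
  intro T hT hp htan
  set Q := Real.sqrt (3 * ρ) with hQ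
  have hQ0 : 0 ≤ Q := Real.sqrt_nonneg _
  set A := (6 * B + 8 * K) * Q with hA
  have base : ∀ w : E, ∀ u ∈ ball c.x₀ ρ, ‖w‖ ≤ 2 * ρ → ρ < ‖w‖ →
      ‖(hat c T (u + w) - (u + w)) - (hat c T u - u)‖ ≤
        (A - 8 * K * Real.sqrt ‖w‖) * ‖w‖ := by
    intro w u hu hw1 hw2
    have hu' : ‖u - c.x₀‖ < ρ := by rwa [mem_ball, dist_eq_norm] at hu
    have huw : ‖u + w - c.x₀‖ < 3 * ρ := by
      have h1 : u + w - c.x₀ = (u - c.x₀) + w := by abel
      rw [h1]
      have := norm_add_le (u - c.x₀) w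
      linarith
    have h1 := hgr T hT hp htan (u + w) (by rw [mem_ball, dist_eq_norm]; linarith)
    have h2 := hgr T hT hp htan u (by rw [mem_ball, dist_eq_norm]; linarith)
    have h3 : hh ‖u + w - c.x₀‖ ≤ 3 * ρ * Q := hh_mono (norm_nonneg _) huw.le
    have h4 : hh ‖u - c.x₀‖ ≤ 3 * ρ * Q := hh_mono (norm_nonneg _) (by linarith)
    have h5 := norm_sub_le (hat c T (u + w) - (u + w)) (hat c T u - u)
    have h6 : B * hh ‖u + w - c.x₀‖ ≤ B * (3 * ρ * Q) := by gcongr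
    have h7 : B * hh ‖u - c.x₀‖ ≤ B * (3 * ρ * Q) := by gcongr
    have h8 : Real.sqrt ‖w‖ ≤ Q := Real.sqrt_le_sqrt (by linarith)
    have h9 : 6 * B * Q * ρ ≤ 6 * B * Q * ‖w‖ := by gcongr
    have h10 : 8 * K * Real.sqrt ‖w‖ ≤ 8 * K * Q := by gcongr
    have h11 : 6 * B * Q * ‖w‖ ≤ (A - 8 * K * Real.sqrt ‖w‖) * ‖w‖ := by
      apply mul_le_mul_of_nonneg_right _ (norm_nonneg _)
      rw [hA]; linarith
    nlinarith
  have ind : ∀ k : ℕ, ∀ w : E, ∀ u ∈ ball c.x₀ ρ, ‖w‖ ≤ 2 * ρ → ρ < 2 ^ k * ‖w‖ →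
      ‖(hat c T (u + w) - (u + w)) - (hat c T u - u)‖ ≤
        (A - 8 * K * Real.sqrt ‖w‖) * ‖w‖ := by
    intro k
    induction k with
    | zero =>
      intro w u hu hw1 hw2
      rw [pow_zero, one_mul] at hw2
      exact base w u hu hw1 hw2
    | succ k ih =>
      intro w u hu hw1 hw2
      rcases lt_or_ge ρ ‖w‖ with h | h
      · exact base w u hu hw1 h
      have hn2 : ‖(2 : ℝ) • w‖ = 2 * ‖w‖ := by
        rw [norm_smul]; norm_num
      have h1 := ih ((2 : ℝ) • w) u hu (by rw [hn2]; linarith) (by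
        rw [hn2]
        rw [pow_succ] at hw2
        linarith)
      have hu' : ‖u - c.x₀‖ < ρ := by rwa [mem_ball, dist_eq_norm] at hu
      have h2 := hsd T hT hp u (by rw [mem_ball, dist_eq_norm]; linarith) (u + (2 : ℝ) • w) (by
        rw [mem_ball, dist_eq_norm]
        have h3 : u + (2 : ℝ) • w - c.x₀ = (u - c.x₀) + (2 : ℝ) • w := by abel
        rw [h3]
        have := norm_add_le (u - c.x₀) ((2 : ℝ) • w)
        rw [hn2] at this
        linarith)
      have h3 : (1 / 2 : ℝ) • (u + (u + (2 : ℝ) • w)) = u + w := by module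
      have h4 : u + (2 : ℝ) • w - u = (2 : ℝ) • w := by abel
      rw [h3, h4, hn2] at h2
      have h5 : (hat c T (u + w) - (u + w)) - (hat c T u - u) =
          (1 / 2 : ℝ) • ((hat c T (u + (2 : ℝ) • w) - (u + (2 : ℝ) • w)) - (hat c T u - u)) +
            (hat c T (u + w) - (1 / 2 : ℝ) • (hat c T u + hat c T (u + (2 : ℝ) • w))) := by
        module
      rw [h5]
      refine (norm_add_le _ _).trans ?_
      rw [norm_smul]
      have : ‖(1 / 2 : ℝ)‖ = 1 / 2 := by norm_num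
      rw [this]
      rw [hn2] at h1
      have h6 : hh (2 * ‖w‖) = 2 * ‖w‖ * Real.sqrt (2 * ‖w‖) := rfl
      rw [h6] at h2
      have h7 := sqrt_double (N := ‖w‖)
      have h8 := norm_nonneg w
      have h9 : 0 ≤ K * ‖w‖ := by positivity
      have h10 : 8 * (K * ‖w‖) * Real.sqrt ‖w‖ ≤ 6 * (K * ‖w‖) * Real.sqrt (2 * ‖w‖) := by
        have h0 := Real.sqrt_nonneg ‖w‖
        have : 8 * Real.sqrt ‖w‖ ≤ 6 * Real.sqrt (2 * ‖w‖) := by linarith
        nlinarith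
      nlinarith
  intro x hx y hy
  set w := y - x with hw
  have hyx : y = x + w := by rw [hw]; abel
  rcases eq_or_ne w 0 with h0 | h0
  · rw [hyx, h0]
    simp
  have hwpos : 0 < ‖w‖ := norm_pos_iff.mpr h0
  have hw2 : ‖w‖ ≤ 2 * ρ := by
    have h1 := dist_triangle_right y x c.x₀
    rw [mem_ball] at hx hy
    rw [hw, ← dist_eq_norm]
    linarith
  obtain ⟨k, hk⟩ := pow_unbounded_of_one_lt (ρ / ‖w‖) (one_lt_two (α := ℝ))
  have h1 := ind k w x hx hw2 (by rwa [div_lt_iff₀ hwpos] at hk)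
  rw [← hyx] at h1
  refine h1.trans ?_
  apply mul_le_mul_of_nonneg_right _ hwpos.le
  have := Real.sqrt_nonneg ‖w‖
  have : 0 ≤ 8 * K * Real.sqrt ‖w‖ := by positivity
  linarith

variable {c}

theorem hat_comp {S T : M → M} (hT : Isometry T) (hp : T (c.ψ c.x₀) = c.ψ c.x₀) {x : E}
    (hx : x ∈ ball c.x₀ (ra c)) : hat c (fun z => S (T z)) x = hat c S (hat c T x) := by
  unfold hat
  have := (hat_spec hT hp hx).1
  unfold hat at this
  rw [this]

theorem Tan.comp {S T : M → M} (hT : Isometry T) (hp : T (c.ψ c.x₀) = c.ψ c.x₀)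
    (h1 : Tan c S) (h2 : Tan c T) : Tan c (fun z => S (T z)) := by
  intro ε hε
  have hL := c.one_le_L
  obtain ⟨δ1, hδ1, e1⟩ := h1 (ε / (2 * c.L ^ 2)) (by positivity)
  obtain ⟨δ2, hδ2, e2⟩ := h2 (ε / 2) (by positivity)
  refine ⟨min (ra c) (min (δ1 / c.L ^ 2) δ2), lt_min (ra_pos c) (lt_min (by positivity) hδ2), ?_⟩
  intro x hx
  have hx1 : ‖x - c.x₀‖ < ra c := lt_of_lt_of_le hx (min_le_left _ _)
  have hx2 : ‖x - c.x₀‖ < δ1 / c.L ^ 2 :=
    lt_of_lt_of_le hx ((min_le_right _ _).trans (min_le_left _ _))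
  have hx3 : ‖x - c.x₀‖ < δ2 := lt_of_lt_of_le hx ((min_le_right _ _).trans (min_le_right _ _))
  have hxm : x ∈ ball c.x₀ (ra c) := by rwa [mem_ball, dist_eq_norm]
  rw [hat_comp hT hp hxm]
  obtain ⟨-, h3, -⟩ := hat_spec hT hp hxm
  have h4 := e1 (hat c T x) (by
    refine lt_of_le_of_lt h3 ?_
    rw [lt_div_iff₀ (by positivity)] at hx2
    linarith)
  have h5 := e2 x hx3
  have h6 : hat c S (hat c T x) - x = (hat c S (hat c T x) - hat c T x) + (hat c T x - x) := by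
    abel
  rw [h6]
  refine (norm_add_le _ _).trans ?_
  have h7 : ε / (2 * c.L ^ 2) * ‖hat c T x - c.x₀‖ ≤ ε / 2 * ‖x - c.x₀‖ := by
    calc ε / (2 * c.L ^ 2) * ‖hat c T x - c.x₀‖ ≤
        ε / (2 * c.L ^ 2) * (c.L ^ 2 * ‖x - c.x₀‖) := by gcongr
      _ = ε / 2 * ‖x - c.x₀‖ := by field_simp
  linarith

theorem trivial_near
    (hmid : ∀ x y : M, ∃ m : M, dist x m = dist x y / 2 ∧ dist m y = dist x y / 2)
    {t : M → M} (ht : Isometry t) (hp : t (c.ψ c.x₀) = c.ψ c.x₀) (htan : Tan c t) :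
    ∃ δ > 0, ∀ y, dist (c.ψ c.x₀) y < δ → t y = y := by
  obtain ⟨ρ, hρ, hρa, hlip⟩ := small_lip c hmid
  have hL := c.one_le_L
  have hiso : ∀ n : ℕ, Isometry (t^[n]) := by
    intro n
    induction n with
    | zero => exact isometry_id
    | succ n ih => rw [Function.iterate_succ]; exact ih.comp ht
  have hfix : ∀ n : ℕ, t^[n] (c.ψ c.x₀) = c.ψ c.x₀ := by
    intro n
    induction n with
    | zero => rfl
    | succ n ih => rw [Function.iterate_succ_apply, hp, ih]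
  have htn : ∀ n : ℕ, Tan c (t^[n]) := by
    intro n
    induction n with
    | zero =>
      intro ε hε
      refine ⟨c.r, c.rpos, ?_⟩
      intro x hx
      have : hat c t^[0] x = x := by
        change c.φ (c.ψ x) = x
        exact c.φψ x (by rwa [mem_ball, dist_eq_norm])
      rw [this, sub_self, norm_zero]
      have := norm_nonneg (x - c.x₀)
      positivity
    | succ n ih =>
      change Tan c (fun z => t^[n] (t z))
      exact Tan.comp ht hp ih htan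
  have hsub : ∀ x ∈ ball c.x₀ (ρ / c.L ^ 2), hat c t x = x := by
    intro x hx
    have hL2 : 1 ≤ c.L ^ 2 := by nlinarith
    have hxρ : x ∈ ball c.x₀ ρ := ball_subset_ball (div_le_self hρ.le hL2) hx
    have hxa : x ∈ ball c.x₀ (ra c) := ball_subset_ball hρa hxρ
    obtain ⟨a1, a2, a3⟩ := hat_spec ht hp hxa
    set y := hat c t x with hy
    have hyρ : y ∈ ball c.x₀ ρ := by
      rw [mem_ball, dist_eq_norm] at hx ⊢
      refine lt_of_le_of_lt a2 ?_
      rw [lt_div_iff₀ (by positivity)] at hx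
      linarith
    have hstep : ∀ n : ℕ, hat c t^[n] y = hat c t^[n + 1] x := by
      intro n
      have := hat_comp (S := t^[n]) ht hp hxa
      rw [← hy] at this
      rw [← this]
      rfl
    have h0 : hat c t^[0] x = x := by
      change c.φ (c.ψ x) = x
      exact c.φψ x (ball_subset_ball (by linarith [c.r₁_lt, c.r₁pos, ra_le c]) hxa)
    have htel : ∀ N : ℕ, hat c t^[N] x - x =
        (N : ℝ) • (y - x) + ∑ n ∈ Finset.range N,
          ((hat c t^[n] y - y) - (hat c t^[n] x - x)) := by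
      intro N
      induction N with
      | zero => rw [h0]; simp
      | succ N ih =>
        rw [Finset.sum_range_succ, hstep]
        generalize hS : ∑ n ∈ Finset.range N,
          ((hat c t^[n] y - y) - (hat c t^[n] x - x)) = S at ih ⊢
        push_cast
        have h1 : ((N : ℝ) + 1) • (y - x) +
            (S + ((hat c t^[N + 1] x - y) - (hat c t^[N] x - x))) =
            ((N : ℝ) • (y - x) + S) + (hat c t^[N + 1] x - x) - (hat c t^[N] x - x) := by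
          module
        rw [h1, ← ih]
        abel
    have hbound : ∀ N : ℕ, (N : ℝ) / 2 * ‖y - x‖ ≤ (c.L ^ 2 + 1) * ρ := by
      intro N
      have h1 : ‖∑ n ∈ Finset.range N, ((hat c t^[n] y - y) - (hat c t^[n] x - x))‖ ≤
          N * (1 / 2 * ‖y - x‖) := by
        refine (norm_sum_le _ _).trans ?_
        have : ∀ n ∈ Finset.range N, ‖(hat c t^[n] y - y) - (hat c t^[n] x - x)‖ ≤
            1 / 2 * ‖y - x‖ := fun n _ => hlip _ (hiso n) (hfix n) (htn n) x hxρ y hyρ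
        refine (Finset.sum_le_sum this).trans ?_
        simp
      have h2 := (hat_spec (hiso N) (hfix N) hxa).2.1
      have hx' : ‖x - c.x₀‖ < ρ := by rwa [mem_ball, dist_eq_norm] at hxρ
      have h3 : ‖hat c t^[N] x - x‖ ≤ (c.L ^ 2 + 1) * ρ := by
        have h4 : hat c t^[N] x - x = (hat c t^[N] x - c.x₀) - (x - c.x₀) := by abel
        rw [h4]
        refine (norm_sub_le _ _).trans ?_
        have : c.L ^ 2 * ‖x - c.x₀‖ ≤ c.L ^ 2 * ρ := by gcongr
        linarith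
      have h5 : (N : ℝ) • (y - x) = (hat c t^[N] x - x) -
          ∑ n ∈ Finset.range N, ((hat c t^[n] y - y) - (hat c t^[n] x - x)) := by
        rw [htel N]; abel
      have h6 : (N : ℝ) * ‖y - x‖ ≤ (c.L ^ 2 + 1) * ρ + N * (1 / 2 * ‖y - x‖) := by
        calc (N : ℝ) * ‖y - x‖ = ‖(N : ℝ) • (y - x)‖ := by
              rw [norm_smul, Real.norm_of_nonneg (Nat.cast_nonneg N)]
          _ ≤ _ := by
              rw [h5]
              refine (norm_sub_le _ _).trans ?_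
              linarith
      linarith
    by_contra hne
    have hpos : 0 < ‖y - x‖ := norm_pos_iff.mpr (sub_ne_zero.mpr hne)
    obtain ⟨N, hN⟩ := exists_nat_gt (2 * ((c.L ^ 2 + 1) * ρ) / ‖y - x‖)
    rw [div_lt_iff₀ hpos] at hN
    have := hbound N
    linarith
  have hL2 : 1 ≤ c.L ^ 2 := by nlinarith
  refine ⟨min c.τ (ρ / c.L ^ 2 / c.L), lt_min c.τpos (by positivity), ?_⟩
  intro z hz
  obtain ⟨w, hw, hwz, hwn⟩ := c.in_chart (mem_ball_self c.r₁pos) (lt_of_lt_of_le hz (min_le_left _ _))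
  have hwb : w ∈ ball c.x₀ (ρ / c.L ^ 2) := by
    rw [mem_ball, dist_eq_norm]
    refine lt_of_le_of_lt hwn ?_
    have := lt_of_lt_of_le hz (min_le_right _ _)
    rw [lt_div_iff₀ (by positivity)] at this
    linarith
  have h1 := hsub w hwb
  have h2 := (hat_spec ht hp (ball_subset_ball ((div_le_self hρ.le hL2).trans hρa) hwb)).1
  rw [h1, hwz] at h2
  exact h2.symm

/-- the coordinate expression has minus the identity as derivative at the centre -/
def Ref (c : Loc M E) (T : M → M) : Prop :=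
  ∀ ε > 0, ∃ δ > 0, ∀ x, ‖x - c.x₀‖ < δ →
    ‖(hat c T x - c.x₀) + (x - c.x₀)‖ ≤ ε * ‖x - c.x₀‖

theorem Ref.sq {s : M → M} (hs : Isometry s) (hp : s (c.ψ c.x₀) = c.ψ c.x₀) (h : Ref c s) :
    Tan c (fun z => s (s z)) := by
  intro ε hε
  have hL := c.one_le_L
  obtain ⟨δ1, hδ1, e1⟩ := h (ε / (2 * c.L ^ 2)) (by positivity)
  refine ⟨min (ra c) (δ1 / c.L ^ 2), lt_min (ra_pos c) (by positivity), ?_⟩
  intro x hx
  have hx1 : ‖x - c.x₀‖ < ra c := lt_of_lt_of_le hx (min_le_left _ _)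
  have hx2 : ‖x - c.x₀‖ < δ1 / c.L ^ 2 := lt_of_lt_of_le hx (min_le_right _ _)
  have hxm : x ∈ ball c.x₀ (ra c) := by rwa [mem_ball, dist_eq_norm]
  rw [hat_comp hs hp hxm]
  obtain ⟨-, h3, -⟩ := hat_spec hs hp hxm
  rw [lt_div_iff₀ (by positivity)] at hx2
  have hL2 : 1 ≤ c.L ^ 2 := by nlinarith
  have h4 := e1 (hat c s x) (by
    refine lt_of_le_of_lt h3 ?_
    linarith)
  have h5 := e1 x (by
    have := norm_nonneg (x - c.x₀)
    nlinarith)
  have h6 : hat c s (hat c s x) - x = ((hat c s (hat c s x) - c.x₀) + (hat c s x - c.x₀)) -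
      ((hat c s x - c.x₀) + (x - c.x₀)) := by
    abel
  rw [h6]
  refine (norm_sub_le _ _).trans ?_
  have h7 : ε / (2 * c.L ^ 2) * ‖hat c s x - c.x₀‖ ≤ ε / 2 * ‖x - c.x₀‖ := by
    calc ε / (2 * c.L ^ 2) * ‖hat c s x - c.x₀‖ ≤
        ε / (2 * c.L ^ 2) * (c.L ^ 2 * ‖x - c.x₀‖) := by gcongr
      _ = ε / 2 * ‖x - c.x₀‖ := by field_simp
  have h8 : ε / (2 * c.L ^ 2) * ‖x - c.x₀‖ ≤ ε / 2 * ‖x - c.x₀‖ := by
    apply mul_le_mul_of_nonneg_right _ (norm_nonneg _)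
    apply div_le_div_of_nonneg_left hε.le (by norm_num)
    linarith
  linarith

theorem Ref.isolated {s : M → M} (h : Ref c s) :
    ∃ ε > 0, ∀ y, dist y (c.ψ c.x₀) < ε → s y = y → y = c.ψ c.x₀ := by
  have hL := c.one_le_L
  obtain ⟨δ, hδ, e⟩ := h 1 one_pos
  refine ⟨min c.τ (δ / c.L), lt_min c.τpos (by positivity), ?_⟩
  intro y hy hsy
  rw [dist_comm] at hy
  obtain ⟨w, hw, hwy, hwn⟩ := c.in_chart (mem_ball_self c.r₁pos)
    (lt_of_lt_of_le hy (min_le_left _ _))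
  have h1 : ‖w - c.x₀‖ < δ := by
    refine lt_of_le_of_lt hwn ?_
    have := lt_of_lt_of_le hy (min_le_right _ _)
    rw [lt_div_iff₀ (by positivity)] at this
    linarith
  have h2 : hat c s w = w := by
    rw [hat, hwy, hsy, ← hwy, c.φψ w hw]
  have h3 := e w h1
  rw [h2] at h3
  have h4 : (w - c.x₀) + (w - c.x₀) = (2 : ℝ) • (w - c.x₀) := by module
  rw [h4, norm_smul] at h3
  have : ‖(2 : ℝ)‖ = 2 := by norm_num
  rw [this] at h3
  have h5 := norm_nonneg (w - c.x₀)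
  have h6 : ‖w - c.x₀‖ = 0 := by linarith
  have h7 : w = c.x₀ := sub_eq_zero.mp (norm_eq_zero.mp h6)
  rw [← hwy, h7]

end Pool.Agent.R979.NG
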